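import Pool.Agent.Q292.LC.Stm4
import Pool.Agent.Q151.LC.Walk

/-!
# Project LC: windows and good environments (jobs LC-SUB, LC-GE of helper292)
-/

set_option autoImplicit false
set_option linter.unusedSectionVars false
set_option linter.unusedVariables false

namespace Pool.Agent.Q277.LC

open Finset Equiv Matrix Q292.LC
open Pool.Agent.Q151.LC (jumps_shift sh_per td_jumps td_tri td_comm mem_bal)

variable {d L : ℕ} [NeZero L]

theorem sh_sh {α : Type} (s t : ℕ) (f : ℕ → α) : sh s (sh t f) = sh (t + s) f := by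
  funext k
  unfold sh
  congr 1
  ring

theorem gp_window {σ : ℕ → (Fin d → ZMod L) × Fin d} (hσ : Per σ) (N : ℕ) (ω : ℕ → Bool) (k : ℕ)
    (a : Fin d → ZMod L) :
    gp (ed ∘ σ) (sh (N * ms d L) ω) k (gp (ed ∘ σ) ω (N * ms d L) a) =
      gp (ed ∘ σ) ω (N * ms d L + k) a := by
  rw [Pool.Agent.Q68.LC.gp_add, sh_per hσ]
  rfl

/-- jumps in a window of the shifted circuit -/
theorem jumps_window {σ : ℕ → (Fin d → ZMod L) × Fin d} (hσ : Per σ) (N M m : ℕ) (ω : ℕ → Bool)
    (a : Fin d → ZMod L) :
    jumps (ed ∘ σ) (sh (N * ms d L) ω) (M * ms d L) (M * ms d L + m)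
      (gp (ed ∘ σ) ω (N * ms d L) a) =
    jumps (ed ∘ σ) ω (N * ms d L + M * ms d L) (N * ms d L + M * ms d L + m) a := by
  rw [jumps_shift, jumps_shift, gp_window hσ, sh_sh]
  rw [sh_per hσ, ← Nat.add_mul, sh_per hσ]

theorem sub : Q292.LC.S_SUB := by
  intro d L _ hL σ hσ q K lam r ρ κ₀ ω A hE j u hju
  obtain ⟨h1, h2, h3⟩ := hE
  have hper : sh (j * (q * ms d L)) (ed ∘ σ) = ed ∘ σ := by
    rw [← mul_assoc]
    exact sh_per hσ (j * q)
  refine ⟨hper, ?_, ?_, ?_⟩
  · intro i hi v
    have h := h1 (j + i) (by omega) v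
    rw [Finset.image_image]
    have e1 : (gp (ed ∘ σ) (sh (j * (q * ms d L)) ω) (i * (q * ms d L))) ∘
        (gp (ed ∘ σ) ω (j * (q * ms d L))) = gp (ed ∘ σ) ω ((j + i) * (q * ms d L)) := by
      funext a
      simp only [Function.comp_apply]
      have := gp_window hσ (j * q) ω (i * (q * ms d L)) a
      rw [mul_assoc] at this
      rw [this]
      congr 2
      ring
    rw [e1]
    exact h
  · intro i hi a' ha'
    obtain ⟨a, ha, rfl⟩ := Finset.mem_image.1 ha'
    have h := h2 (j + i) (by omega) a ha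
    have e1 := jumps_window hσ (j * q) (i * q) (q * ms d L) ω a
    have e2 : j * (q * ms d L) = j * q * ms d L := by ring
    have e3 : i * (q * ms d L) = i * q * ms d L := by ring
    have e4 : (i + 1) * (q * ms d L) = i * q * ms d L + q * ms d L := by ring
    rw [e2, e3, e4, e1]
    have e5 : (j + i) * (q * ms d L) = j * q * ms d L + i * q * ms d L := by ring
    have e6 : (j + i + 1) * (q * ms d L) = j * q * ms d L + i * q * ms d L + q * ms d L := by ring
    rw [e5, e6] at h
    exact h
  · intro a' ha' b' hb' hab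
    obtain ⟨a, ha, rfl⟩ := Finset.mem_image.1 ha'
    obtain ⟨b, hb, rfl⟩ := Finset.mem_image.1 hb'
    have hne : a ≠ b := fun h => hab (by rw [h])
    refine le_trans ?_ (h3 a ha b hb hne)
    refine Finset.card_le_card_of_injOn (fun s => s + j * q) ?_ (fun x _ y _ h => Nat.add_right_cancel h)
    intro s hs
    simp only [Finset.coe_filter, Finset.mem_range, Set.mem_ofPred_eq] at hs ⊢
    obtain ⟨hs1, hs2⟩ := hs
    refine ⟨?_, ?_⟩
    · have : u * q + j * q ≤ K * q := by
        rw [← Nat.add_mul]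
        exact Nat.mul_le_mul_right _ (by omega)
      omega
    · have e2 : j * (q * ms d L) = j * q * ms d L := by ring
      rw [e2, gp_window hσ, gp_window hσ] at hs2
      have e7 : (s + j * q) * ms d L = j * q * ms d L + s * ms d L := by ring
      rw [e7]
      exact hs2

theorem card_image_inter (g : Perm (Fin d → ZMod L)) (A B : Finset (Fin d → ZMod L)) :
    ((A.image g) ∩ B).card = (A.filter fun a => g a ∈ B).card := by
  have : (A.image g) ∩ B = (A.filter fun a => g a ∈ B).image g := by
    ext y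
    simp only [Finset.mem_inter, Finset.mem_image, Finset.mem_filter]
    constructor
    · rintro ⟨⟨a, ha, rfl⟩, hB⟩
      exact ⟨a, ⟨ha, hB⟩, rfl⟩
    · rintro ⟨a, ⟨ha, hB⟩, rfl⟩
      exact ⟨⟨a, ha, rfl⟩, hB⟩
  rw [this, Finset.card_image_of_injective _ g.injective]

theorem ge : Q292.LC.S_GE := by
  intro d L _ hL σ hσ q K lam r ρ κ₀ ω A hq hK hG
  obtain ⟨g1, g2, g3⟩ := hG
  have g1' : ∀ j < K, ∀ v, ((A.image (gp (ed ∘ σ) ω (j * (q * ms d L)))) ∩ bal v (r + ρ)).card ≤ lam := by
    intro j hj v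
    by_contra h
    push Not at h
    exact g1 ⟨j, hj, v, h⟩
  refine ⟨?_, g2, ?_⟩
  · intro j hj v
    rcases Nat.lt_or_ge j K with h | h
    · refine le_trans (Finset.card_le_card ?_) (g1' j h v)
      refine Finset.inter_subset_inter_left ?_
      intro y hy
      rw [mem_bal] at hy ⊢
      omega
    · have hjK : j = K := le_antisymm hj h
      subst hjK
      obtain ⟨j', rfl⟩ : ∃ j', j = j' + 1 := ⟨j - 1, by omega⟩
      refine le_trans ?_ (g1' j' (by omega) v)
      rw [card_image_inter, card_image_inter]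
      refine Finset.card_le_card ?_
      intro a ha
      rw [Finset.mem_filter, mem_bal] at ha ⊢
      refine ⟨ha.1, ?_⟩
      have h2 := g2 j' (by omega) a ha.1
      have e1 : (j' + 1) * (q * ms d L) = j' * (q * ms d L) + q * ms d L := by ring
      have h3 := td_jumps σ ω (j' * (q * ms d L)) (q * ms d L) a
      rw [← e1] at h3
      have h4 := td_tri v (gp (ed ∘ σ) ω ((j' + 1) * (q * ms d L)) a)
        (gp (ed ∘ σ) ω (j' * (q * ms d L)) a)
      omega
  · intro a ha b hb hab
    have h := g3 a ha b hb hab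
    rw [Finset.range_add_one, Finset.filter_insert]
    split_ifs
    · refine le_trans (Finset.card_insert_le _ _) ?_
      have : (κ₀ + 1) * q = κ₀ * q + q := by ring
      omega
    · have : (κ₀ + 1) * q = κ₀ * q + q := by ring
      omega

end Pool.Agent.Q277.LC
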