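import Pool.Agent.Q292.LC.Stm7
import Pool.Agent.Q151.LC.Tor

/-!
# Project LC: covering of a ball by small balls (job LC-CNT of helper292)
-/

set_option autoImplicit false
set_option linter.unusedSectionVars false
set_option linter.unusedVariables false

namespace Pool.Agent.Q277.LC

open Finset Equiv Matrix Q292.LC
open Pool.Agent.Q151.LC (mem_bal)

theorem cnt : Q292.LC.S_CNT := by
  classical
  intro d L _ hd hL S r₁ R lam hr hS z
  obtain ⟨m, hm⟩ : ∃ m, m = r₁ / d := ⟨_, rfl⟩
  have hm1 : 1 ≤ m := by
    rw [hm]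
    exact (Nat.one_le_div_iff (by omega)).2 hr
  have hmd : d * m ≤ r₁ := by
    rw [hm]
    exact Nat.mul_div_le _ _
  rw [← hm]
  obtain ⟨T, hT⟩ : ∃ T : ℕ, T = R / m := ⟨_, rfl⟩
  rw [← hT]
  -- the centers
  let P : Finset (Fin d → ZMod L) := Fintype.piFinset (fun i : Fin d =>
    (Finset.Icc (-(T : ℤ) - 1) (T + 1)).image (fun k : ℤ => z i - ((m : ℤ) * k : ℤ)))
  have hP : P.card ≤ (2 * T + 3) ^ d := by
    show (Fintype.piFinset _).card ≤ _
    rw [Fintype.card_piFinset]
    calc ∏ i : Fin d, ((Finset.Icc (-(T : ℤ) - 1) (T + 1)).image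
          (fun k : ℤ => (z i - ((m : ℤ) * k : ℤ) : ZMod L))).card
        ≤ ∏ i : Fin d, (2 * T + 3) := by
          refine Finset.prod_le_prod' fun i _ => ?_
          refine le_trans Finset.card_image_le ?_
          rw [Int.card_Icc]
          omega
      _ = (2 * T + 3) ^ d := by
          rw [Finset.prod_const, Finset.card_univ, Fintype.card_fin]
  have hcov : S ∩ bal z R ⊆ P.biUnion (fun c => S ∩ bal c r₁) := by
    intro x hx
    rw [Finset.mem_inter, mem_bal] at hx
    obtain ⟨hxS, hxR⟩ := hx
    rw [Finset.mem_biUnion]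
    -- v_i = (z_i - x_i).valMinAbs
    obtain ⟨v, hv⟩ : ∃ v : Fin d → ℤ, v = fun i => (z i - x i).valMinAbs := ⟨_, rfl⟩
    have hvR : ∀ i, (v i).natAbs ≤ R := by
      intro i
      refine le_trans ?_ hxR
      rw [hv]
      unfold td
      exact Finset.single_le_sum (f := fun i => ((z i - x i).valMinAbs).natAbs)
        (fun _ _ => Nat.zero_le _) (Finset.mem_univ i)
    have hvc : ∀ i, z i - x i = ((v i : ℤ) : ZMod L) := by
      intro i
      rw [hv]
      exact (ZMod.coe_valMinAbs _).symm
    obtain ⟨c, hc⟩ : ∃ c : Fin d → ZMod L, c = fun i => z i - (((m : ℤ) * (v i / m) : ℤ) : ZMod L) :=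
      ⟨_, rfl⟩
    have hmZ : (0 : ℤ) < m := by exact_mod_cast hm1
    refine ⟨c, ?_, ?_⟩
    · rw [Fintype.mem_piFinset]
      intro i
      rw [Finset.mem_image]
      refine ⟨v i / m, ?_, ?_⟩
      · rw [Finset.mem_Icc]
        have h1 : (R : ℤ) < (T + 1) * m := by
          have := Nat.lt_div_mul_add (a := R) hm1
          rw [← hT] at this
          have h2 : R < (T + 1) * m := by rw [Nat.add_mul, one_mul]; exact this
          exact_mod_cast h2
        have h3 := hvR i
        have h4 : -(R : ℤ) ≤ v i := by omega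
        have h5 : v i ≤ R := by omega
        constructor
        · rw [Int.le_ediv_iff_mul_le hmZ]
          have : (-(T : ℤ) - 1) * m = -((T + 1) * m) := by ring
          rw [this]
          linarith
        · have : v i / m < T + 1 := by
            rw [Int.ediv_lt_iff_lt_mul hmZ]
            linarith
          omega
      · rw [hc]
    · rw [Finset.mem_inter, mem_bal]
      refine ⟨hxS, ?_⟩
      refine le_trans ?_ hmd
      unfold td
      have hbd : ∀ i ∈ (Finset.univ : Finset (Fin d)), ((c i - x i).valMinAbs).natAbs ≤ m := by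
        intro i _
        have e1 : c i - x i = ((v i % m : ℤ) : ZMod L) := by
          rw [hc]
          have h1 : v i % m = v i - m * (v i / m) := Int.emod_def _ _
          rw [h1]
          push_cast
          rw [← hvc i]
          ring
        rw [e1]
        have h2 : ((((v i % m : ℤ) : ZMod L)).valMinAbs).natAbs ≤ (v i % m).natAbs :=
          ZMod.natAbs_min_of_le_div_two L _ _ (ZMod.coe_valMinAbs _) (ZMod.natAbs_valMinAbs_le _)
        have h3 := Int.emod_nonneg (v i) hmZ.ne'
        have h4 := Int.emod_lt_of_pos (v i) hmZ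
        omega
      refine le_trans (Finset.sum_le_sum hbd) ?_
      rw [Finset.sum_const, Finset.card_univ, Fintype.card_fin, smul_eq_mul]
  refine le_trans (Finset.card_le_card hcov) ?_
  refine le_trans Finset.card_biUnion_le ?_
  refine le_trans (Finset.sum_le_sum fun c _ => hS c) ?_
  rw [Finset.sum_const, smul_eq_mul, mul_comm]
  exact Nat.mul_le_mul_left _ hP

end Pool.Agent.Q277.LC
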