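import Pool.Agent.Q277.LC.Res
import Pool.Agent.Q53.LC.Poi

/-!
# Project LC: boxes and the torus (job LC-DVA of helper292)
-/

set_option autoImplicit false
set_option linter.unusedSectionVars false
set_option linter.unusedVariables false

namespace Pool.Agent.Q277.LC

open Finset Equiv Matrix Q292.LC

section gen

variable {V : Type} [Fintype V] [DecidableEq V]

/-- sum over the cycle -/
def sc (g : Perm V) (u : V → ℝ) (x : V) : ℝ := ∑ y ∈ cyc g x, u y

theorem cyc_card_pos (g : Perm V) (x : V) : (0 : ℝ) < ((cyc g x).card : ℝ) := by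
  have : 0 < (cyc g x).card :=
    Finset.card_pos.2 ⟨x, (Pool.Agent.Q153.LC.mem_cyc g x x).2 (Perm.SameCycle.refl g x)⟩
  exact_mod_cast this

theorem sc_const (g : Perm V) (u : V → ℝ) (x y : V) (hy : y ∈ cyc g x) : sc g u y = sc g u x := by
  unfold sc
  rw [Pool.Agent.Q153.LC.cyc_eq g x y hy]

/-- the bilinear form -/
theorem sc_form (g : Perm V) (A : Finset V) (hA : Q292.LC.Inv g A) (u v : V → ℝ) :
    ∑ x ∈ univ \ A, sc g u x * sc g v x / ((cyc g x).card : ℝ) =
      ∑ x ∈ univ \ A, u x * sc g v x := by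
  rw [← sum_cyc_mean g A hA (fun x => u x * sc g v x)]
  refine Finset.sum_congr rfl fun x _ => ?_
  congr 1
  rw [Finset.sum_congr rfl (fun y hy => by rw [sc_const g v x y hy] :
    ∀ y ∈ cyc g x, u y * sc g v y = u y * sc g v x), ← Finset.sum_mul]
  rfl

theorem inv_empty (g : Perm V) : Q292.LC.Inv g ∅ := fun a ha => absurd ha (Finset.notMem_empty a)

theorem sc_form_univ (g : Perm V) (u v : V → ℝ) :
    ∑ x, sc g u x * sc g v x / ((cyc g x).card : ℝ) = ∑ x, u x * sc g v x := by
  have := sc_form g ∅ (inv_empty g) u v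
  simpa using this

/-- sums over an invariant set -/
theorem sc_form_in (g : Perm V) (A : Finset V) (hA : Q292.LC.Inv g A) (u v : V → ℝ) :
    ∑ x ∈ A, sc g u x * sc g v x / ((cyc g x).card : ℝ) = ∑ x ∈ A, u x * sc g v x := by
  have h1 := sc_form_univ g u v
  have h2 := sc_form g A hA u v
  have h3 := Finset.sum_sdiff (Finset.subset_univ A) (f := fun x =>
    sc g u x * sc g v x / ((cyc g x).card : ℝ))
  have h4 := Finset.sum_sdiff (Finset.subset_univ A) (f := fun x => u x * sc g v x)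
  linarith

theorem sc_abs (g : Perm V) (u : V → ℝ) (x : V) : |sc g u x| ≤ ∑ y, |u y| := by
  unfold sc
  refine le_trans (Finset.abs_sum_le_sum_abs _ _) ?_
  exact Finset.sum_le_sum_of_subset_of_nonneg (Finset.subset_univ _) fun _ _ _ => abs_nonneg _

theorem sc_nonneg (g : Perm V) (u : V → ℝ) (hu : ∀ y, 0 ≤ u y) (x : V) : 0 ≤ sc g u x :=
  Finset.sum_nonneg fun y _ => hu y

/-- the norm is at most the `ℓ¹` norm -/
theorem form_le_l1 (g : Perm V) (A : Finset V) (u : V → ℝ) (M : ℝ)
    (hM : ∑ y, |u y| ≤ M) :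
    ∑ x ∈ univ \ A, sc g u x ^ 2 / ((cyc g x).card : ℝ) ≤ M ^ 2 := by
  have h0 : 0 ≤ ∑ y, |u y| := Finset.sum_nonneg fun _ _ => abs_nonneg _
  calc ∑ x ∈ univ \ A, sc g u x ^ 2 / ((cyc g x).card : ℝ)
      ≤ ∑ x, sc g u x ^ 2 / ((cyc g x).card : ℝ) :=
        Finset.sum_le_sum_of_subset_of_nonneg (Finset.subset_univ _) fun x _ _ =>
          div_nonneg (sq_nonneg _) (cyc_card_pos g x).le
    _ = ∑ x, u x * sc g u x := by
        rw [← sc_form_univ]
        refine Finset.sum_congr rfl fun x _ => ?_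
        rw [sq]
    _ ≤ ∑ x, |u x| * ∑ y, |u y| := by
        refine Finset.sum_le_sum fun x _ => ?_
        refine le_trans (le_abs_self _) ?_
        rw [abs_mul]
        exact mul_le_mul_of_nonneg_left (sc_abs g u x) (abs_nonneg _)
    _ = (∑ y, |u y|) ^ 2 := by rw [← Finset.sum_mul, sq]
    _ ≤ M ^ 2 := pow_le_pow_left₀ h0 hM 2

/-- part of an invariant set -/
theorem form_in_le (g : Perm V) (A : Finset V) (hA : Q292.LC.Inv g A) (u v : V → ℝ)
    (hu : ∀ y, 0 ≤ u y) (hv : ∀ y, 0 ≤ v y) (hu1 : ∑ y, u y ≤ 1) (hv1 : ∑ y, v y ≤ 1) :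
    ∑ x ∈ A, (sc g u x - sc g v x) ^ 2 / ((cyc g x).card : ℝ) ≤ ∑ x ∈ A, u x + ∑ x ∈ A, v x := by
  have hu2 : ∀ x, sc g u x ≤ 1 := fun x => by
    refine le_trans (le_abs_self _) (le_trans (sc_abs g u x) ?_)
    rw [Finset.sum_congr rfl (fun y _ => abs_of_nonneg (hu y))]
    exact hu1
  have hv2 : ∀ x, sc g v x ≤ 1 := fun x => by
    refine le_trans (le_abs_self _) (le_trans (sc_abs g v x) ?_)
    rw [Finset.sum_congr rfl (fun y _ => abs_of_nonneg (hv y))]
    exact hv1
  have h1 : ∑ x ∈ A, (sc g u x - sc g v x) ^ 2 / ((cyc g x).card : ℝ) ≤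
      ∑ x ∈ A, sc g u x * sc g u x / ((cyc g x).card : ℝ) +
        ∑ x ∈ A, sc g v x * sc g v x / ((cyc g x).card : ℝ) := by
    rw [← Finset.sum_add_distrib]
    refine Finset.sum_le_sum fun x _ => ?_
    rw [← add_div]
    refine div_le_div_of_nonneg_right ?_ (cyc_card_pos g x).le
    have := mul_nonneg (sc_nonneg g u hu x) (sc_nonneg g v hv x)
    nlinarith
  refine le_trans h1 ?_
  rw [sc_form_in g A hA u u, sc_form_in g A hA v v]
  refine add_le_add ?_ ?_
  · refine Finset.sum_le_sum fun x _ => ?_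
    have := mul_le_mul_of_nonneg_left (hu2 x) (hu x)
    linarith
  · refine Finset.sum_le_sum fun x _ => ?_
    have := mul_le_mul_of_nonneg_left (hv2 x) (hv x)
    linarith

theorem sc_add (g : Perm V) (u v : V → ℝ) (x : V) :
    sc g (fun y => u y + v y) x = sc g u x + sc g v x := Finset.sum_add_distrib

theorem sc_sub (g : Perm V) (u v : V → ℝ) (x : V) :
    sc g (fun y => u y - v y) x = sc g u x - sc g v x := Finset.sum_sub_distrib _ _

end gen

section torus

variable {d L : ℕ} [NeZero L]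

/-- every point is in `r ^ d` boxes -/
theorem card_boxes (hr : ℕ) (hrL : hr ≤ L) (x : Fin d → ZMod L) :
    (univ.filter fun z => x ∈ box z hr).card = hr ^ d := by
  have h := Pool.Agent.Q53.LC.card_box hrL (-x)
  rw [← h]
  refine Finset.card_nbij' (fun z => -z) (fun z => -z) ?_ ?_ ?_ ?_
  · intro z hz
    simp only [Finset.coe_filter, Finset.mem_univ, true_and, Set.mem_ofPred_eq] at hz
    unfold Q292.LC.box at hz ⊢
    simp only [Finset.mem_filter, Finset.mem_univ, true_and, Finset.coe_filter,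
      Set.mem_ofPred_eq] at hz ⊢
    intro i
    have := hz i
    simp only [Pi.neg_apply]
    rw [show -z i - -x i = x i - z i by ring]
    exact this
  · intro z hz
    unfold Q292.LC.box at hz ⊢
    simp only [Finset.mem_filter, Finset.mem_univ, true_and, Finset.coe_filter,
      Set.mem_ofPred_eq] at hz ⊢
    intro i
    have := hz i
    simp only [Pi.neg_apply] at this ⊢
    rw [show x i - -z i = z i - -x i by ring]
    exact this
  · intro z _
    simp
  · intro z _
    simp

/-- indicator of the box, normalised -/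
noncomputable def be (r : ℕ) (z x : Fin d → ZMod L) : ℝ :=
  if x ∈ box z r then 1 / (r : ℝ) ^ d else 0

theorem be_nonneg (r : ℕ) (z x : Fin d → ZMod L) : 0 ≤ be r z x := by
  unfold be
  split_ifs <;> positivity

theorem be_sum (r : ℕ) (hr1 : 1 ≤ r) (hr : r ≤ L) (z : Fin d → ZMod L) : ∑ x, be r z x = 1 := by
  unfold be
  rw [← Finset.sum_filter, Finset.sum_const, nsmul_eq_mul]
  have h1 : univ.filter (fun x => x ∈ box z r) = box z r := by ext; simp
  rw [h1, Pool.Agent.Q53.LC.card_box hr]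
  have : (0 : ℝ) < (r : ℝ) ^ d := by
    have : (0 : ℝ) < r := by exact_mod_cast hr1
    positivity
  push_cast
  field_simp

theorem be_sum' (r : ℕ) (hr1 : 1 ≤ r) (hr : r ≤ L) (x : Fin d → ZMod L) : ∑ z, be r z x = 1 := by
  unfold be
  rw [← Finset.sum_filter, Finset.sum_const, nsmul_eq_mul, card_boxes r hr]
  have : (0 : ℝ) < (r : ℝ) ^ d := by
    have : (0 : ℝ) < r := by exact_mod_cast hr1
    positivity
  push_cast
  field_simp

/-- the difference of the two uniform distributions -/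
theorem l1_diff (r : ℕ) (hr1 : 1 ≤ r) (hr : r ≤ L) (Dm : Finset (Fin d → ZMod L)) (η : ℝ)
    (hη : η ≤ 1 / 2) (hD : ∀ v, ((Dm ∩ box v r).card : ℝ) ≤ η * (r : ℝ) ^ d)
    (z : Fin d → ZMod L) : ∑ x, |be r z x - chi r Dm z x| ≤ 2 * η := by
  have hR : (0 : ℝ) < (r : ℝ) ^ d := by
    have : (0 : ℝ) < r := by exact_mod_cast hr1
    positivity
  have hc1 : ((box z r \ Dm).card : ℝ) + ((Dm ∩ box z r).card : ℝ) = (r : ℝ) ^ d := by
    have h1 := Finset.card_sdiff_add_card_inter (box z r) Dm
    rw [Pool.Agent.Q53.LC.card_box hr, Finset.inter_comm] at h1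
    exact_mod_cast h1
  have hN : (0 : ℝ) < ((box z r \ Dm).card : ℝ) := by
    have := hD z
    nlinarith
  obtain ⟨N, hNd⟩ : ∃ N, N = ((box z r \ Dm).card : ℝ) := ⟨_, rfl⟩
  have hpt : ∀ x, |be r z x - chi r Dm z x| = (if x ∈ Dm ∩ box z r then 1 / (r : ℝ) ^ d else 0) +
      (if x ∈ box z r \ Dm then 1 / N - 1 / (r : ℝ) ^ d else 0) := by
    intro x
    unfold be chi
    by_cases h1 : x ∈ box z r
    · by_cases h2 : x ∈ Dm
      · have h3 : x ∉ box z r \ Dm := fun h => (Finset.mem_sdiff.1 h).2 h2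
        rw [if_pos h1, if_neg h3, if_pos (Finset.mem_inter.2 ⟨h2, h1⟩), if_neg h3, sub_zero,
          add_zero, abs_of_nonneg (by positivity)]
      · have h3 : x ∈ box z r \ Dm := Finset.mem_sdiff.2 ⟨h1, h2⟩
        rw [if_pos h1, if_pos h3, if_neg (fun h => h2 (Finset.mem_inter.1 h).1), if_pos h3, zero_add,
          ← hNd, abs_sub_comm, abs_of_nonneg]
        rw [sub_nonneg]
        refine one_div_le_one_div_of_le (by rw [hNd]; exact hN) ?_
        rw [hNd, ← hc1]
        have : (0 : ℝ) ≤ ((Dm ∩ box z r).card : ℝ) := Nat.cast_nonneg _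
        linarith
    · have h3 : x ∉ box z r \ Dm := fun h => h1 (Finset.mem_sdiff.1 h).1
      rw [if_neg h1, if_neg h3, if_neg (fun h => h1 (Finset.mem_inter.1 h).2), if_neg h3]
      simp
  rw [Finset.sum_congr rfl (fun x _ => hpt x), Finset.sum_add_distrib, ← Finset.sum_filter,
    ← Finset.sum_filter, Finset.sum_const, Finset.sum_const, nsmul_eq_mul, nsmul_eq_mul]
  have f1 : univ.filter (fun x => x ∈ Dm ∩ box z r) = Dm ∩ box z r := by ext; simp
  have f2 : univ.filter (fun x => x ∈ box z r \ Dm) = box z r \ Dm := by ext; simp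
  rw [f1, f2, ← hNd]
  have hNp : 0 < N := by rw [hNd]; exact hN
  have hk := hD z
  have e1 : ((Dm ∩ box z r).card : ℝ) * (1 / (r : ℝ) ^ d) + N * (1 / N - 1 / (r : ℝ) ^ d) =
      2 * (((Dm ∩ box z r).card : ℝ) / (r : ℝ) ^ d) := by
    have : N = (r : ℝ) ^ d - ((Dm ∩ box z r).card : ℝ) := by rw [hNd]; linarith
    have h5 : N * (1 / N) = 1 := mul_one_div_cancel hNp.ne'
    rw [mul_sub, h5, this]
    field_simp
    ring
  rw [e1]
  have e2 : ((Dm ∩ box z r).card : ℝ) / (r : ℝ) ^ d ≤ η := by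
    rw [div_le_iff₀ hR]
    exact hk
  linarith

open Classical in
theorem dva : Q292.LC.S_DVA := by
  intro d L _ hd g A Dm r η hr1 hrL hA hAD hη0 hη hD
  have hR : (0 : ℝ) < (r : ℝ) ^ d := by
    have : (0 : ℝ) < r := by exact_mod_cast hr1
    positivity
  have hL0 : 0 < L := Nat.pos_of_ne_zero (NeZero.ne L)
  obtain ⟨N, hN⟩ : ∃ N : ℝ, N = (L : ℝ) ^ d := ⟨_, rfl⟩
  have hNp : 0 < N := by
    rw [hN]
    have : (0 : ℝ) < L := by exact_mod_cast hL0
    positivity
  have hcard : ((Finset.univ : Finset (Fin d → ZMod L)).card : ℝ) = N := by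
    rw [Finset.card_univ, Fintype.card_fun, Fintype.card_fin, ZMod.card, hN]
    push_cast
    rfl
  -- the two quantities as forms
  have hQb : N * Qb r g = ∑ z, ∑ x, sc g (be r z) x ^ 2 / ((cyc g x).card : ℝ) := by
    unfold Qb
    rw [← hN, mul_div_assoc']
    have h1 : ∀ z : Fin d → ZMod L, ∑ x ∈ box z r, ∑ y ∈ box z r,
        (if g.SameCycle x y then (1 : ℝ) else 0) =
        ((r : ℝ) ^ d) ^ 2 * ∑ x, sc g (be r z) x ^ 2 / ((cyc g x).card : ℝ) := by
      intro z
      have h2 : ∑ x, sc g (be r z) x ^ 2 / ((cyc g x).card : ℝ) = ∑ x, be r z x * sc g (be r z) x := by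
        rw [← sc_form_univ]
        refine Finset.sum_congr rfl fun x _ => ?_
        rw [sq]
      rw [h2, Finset.mul_sum]
      have h3 : ∀ x, ((r : ℝ) ^ d) ^ 2 * (be r z x * sc g (be r z) x) =
          if x ∈ box z r then ∑ y ∈ box z r, (if g.SameCycle x y then (1 : ℝ) else 0) else 0 := by
        intro x
        have h4 : (r : ℝ) ^ d * sc g (be r z) x =
            ∑ y ∈ box z r, (if g.SameCycle x y then (1 : ℝ) else 0) := by
          unfold sc be
          rw [Finset.mul_sum]
          have e1 : ∑ y ∈ cyc g x, (r : ℝ) ^ d * (if y ∈ box z r then 1 / (r : ℝ) ^ d else 0) =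
              ∑ y ∈ cyc g x, (if y ∈ box z r then (1 : ℝ) else 0) := by
            refine Finset.sum_congr rfl fun y _ => ?_
            split_ifs
            · field_simp
            · simp
          rw [e1, ← Finset.sum_filter, ← Finset.sum_filter]
          refine Finset.sum_congr ?_ fun _ _ => rfl
          ext y
          rw [Finset.mem_filter, Finset.mem_filter, Pool.Agent.Q153.LC.mem_cyc]
          exact and_comm
        have h5 : (r : ℝ) ^ d * be r z x = if x ∈ box z r then (1 : ℝ) else 0 := by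
          unfold be
          split_ifs
          · field_simp
          · simp
        calc ((r : ℝ) ^ d) ^ 2 * (be r z x * sc g (be r z) x)
            = ((r : ℝ) ^ d * be r z x) * ((r : ℝ) ^ d * sc g (be r z) x) := by ring
          _ = _ := by
              rw [h4, h5]
              split_ifs <;> simp
      rw [Finset.sum_congr rfl (fun x _ => h3 x), ← Finset.sum_filter]
      refine Finset.sum_congr ?_ fun _ _ => rfl
      ext; simp
    rw [Finset.sum_congr rfl (fun z _ => h1 z), ← Finset.mul_sum]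
    have h6 : (r : ℝ) ^ (2 * d) = ((r : ℝ) ^ d) ^ 2 := by rw [← pow_mul, mul_comm]
    rw [h6]
    field_simp
  have hQv : Qv g = ∑ x, sc g (fun _ => 1 / N) x ^ 2 / ((cyc g x).card : ℝ) := by
    unfold Qv
    have h2 : ∑ x, sc g (fun _ => 1 / N) x ^ 2 / ((cyc g x).card : ℝ) =
        ∑ x, 1 / N * sc g (fun _ => 1 / N) x := by
      rw [← sc_form_univ]
      refine Finset.sum_congr rfl fun x _ => ?_
      rw [sq]
    have h6 : (L : ℝ) ^ (2 * d) = N ^ 2 := by rw [hN, ← pow_mul, mul_comm]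
    rw [h2, h6, Finset.sum_div]
    refine Finset.sum_congr rfl fun x _ => ?_
    unfold sc
    rw [Finset.sum_const, nsmul_eq_mul, ← Finset.sum_filter, Finset.sum_const, nsmul_eq_mul, mul_one]
    have e1 : univ.filter (fun y => g.SameCycle x y) = cyc g x := by
      ext y
      rw [Finset.mem_filter, Pool.Agent.Q153.LC.mem_cyc]
      simp
    rw [e1]
    field_simp
  -- mean of the boxes
  have hmean : ∀ x : Fin d → ZMod L, ∑ z, be r z x = 1 := fun x => be_sum' r hr1 hrL x
  -- variance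
  have hvar : N * Qb r g - N * Qv g = ∑ z, ∑ x,
      (sc g (be r z) x - sc g (fun _ => 1 / N) x) ^ 2 / ((cyc g x).card : ℝ) := by
    have h1 : ∀ z x, (sc g (be r z) x - sc g (fun _ => 1 / N) x) ^ 2 / ((cyc g x).card : ℝ) =
        sc g (be r z) x ^ 2 / ((cyc g x).card : ℝ) -
        2 * (sc g (be r z) x * sc g (fun _ => 1 / N) x / ((cyc g x).card : ℝ)) +
        sc g (fun _ => 1 / N) x ^ 2 / ((cyc g x).card : ℝ) := by
      intro z x
      ring
    have h2 : ∑ z, ∑ x, (sc g (be r z) x - sc g (fun _ => 1 / N) x) ^ 2 / ((cyc g x).card : ℝ) =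
        ∑ z, ∑ x, sc g (be r z) x ^ 2 / ((cyc g x).card : ℝ) -
        2 * ∑ z, ∑ x, (sc g (be r z) x * sc g (fun _ => 1 / N) x / ((cyc g x).card : ℝ)) +
        ∑ z : Fin d → ZMod L, ∑ x, sc g (fun _ => 1 / N) x ^ 2 / ((cyc g x).card : ℝ) := by
      simp only [h1, Finset.sum_add_distrib, Finset.sum_sub_distrib, ← Finset.mul_sum]
    have h3 : ∑ z, ∑ x, (sc g (be r z) x * sc g (fun _ => 1 / N) x / ((cyc g x).card : ℝ)) =
        N * Qv g := by
      rw [Finset.sum_comm]
      have h4 : ∀ x, ∑ z, (sc g (be r z) x * sc g (fun _ => 1 / N) x / ((cyc g x).card : ℝ)) =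
          N * (sc g (fun _ => 1 / N) x ^ 2 / ((cyc g x).card : ℝ)) := by
        intro x
        have h5 : ∑ z, sc g (be r z) x = N * sc g (fun _ => 1 / N) x := by
          unfold sc
          rw [Finset.sum_comm, Finset.sum_congr rfl (fun y _ => hmean y), Finset.mul_sum]
          refine Finset.sum_congr rfl fun y _ => ?_
          field_simp
        rw [← Finset.sum_div, ← Finset.sum_mul, h5]
        ring
      rw [Finset.sum_congr rfl (fun x _ => h4 x), ← Finset.mul_sum, ← hQv]
    have h6 : ∑ z : Fin d → ZMod L, ∑ x, sc g (fun _ => 1 / N) x ^ 2 / ((cyc g x).card : ℝ) =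
        N * Qv g := by
      rw [← hQv, Finset.sum_const, nsmul_eq_mul, hcard]
    rw [h2, h3, h6, hQb]
    ring
  -- the two parts
  have hpart : ∀ z, ∑ x, (sc g (be r z) x - sc g (fun _ => 1 / N) x) ^ 2 / ((cyc g x).card : ℝ) ≤
      (∑ x ∈ A, be r z x + (A.card : ℝ) / N) + (3 * (N * ∑ x ∈ univ \ A,
      ((∑ y ∈ cyc g x, phz r Dm z y) / ((cyc g x).card : ℝ)) ^ 2) + 3 * (2 * η) ^ 2 +
        3 * (2 * η) ^ 2) := by
    intro z
    rw [← Finset.sum_sdiff (Finset.subset_univ A), add_comm]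
    refine add_le_add ?_ ?_
    · have h1 := form_in_le g A hA (be r z) (fun _ => 1 / N) (be_nonneg r z)
        (fun _ => by positivity) (be_sum r hr1 hrL z).le (by
          rw [Finset.sum_const, nsmul_eq_mul, hcard]
          exact (mul_one_div_cancel hNp.ne').le)
      refine le_trans h1 ?_
      rw [Finset.sum_const, nsmul_eq_mul, mul_one_div]
    · -- unmarked cycles
      obtain ⟨b, hb⟩ : ∃ b : (Fin d → ZMod L) → (Fin d → ZMod L) → ℝ,
        b = fun z x => be r z x - chi r Dm z x := ⟨_, rfl⟩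
      obtain ⟨mb, hmb⟩ : ∃ mb : (Fin d → ZMod L) → ℝ, mb = fun x => (∑ z', b z' x) / N := ⟨_, rfl⟩
      have hdec : ∀ x, be r z x - 1 / N = phz r Dm z x + b z x - mb x := by
        intro x
        rw [hmb, hb]
        unfold phz
        simp only [Finset.sum_sub_distrib, hmean, ← hN]
        field_simp
        ring
      have hsc : ∀ x, sc g (be r z) x - sc g (fun _ => 1 / N) x =
          sc g (phz r Dm z) x + sc g (b z) x - sc g mb x := by
        intro x
        rw [← sc_sub, ← sc_add, ← sc_sub]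
        unfold sc
        exact Finset.sum_congr rfl fun y _ => hdec y
      have h3sq : ∀ a b c : ℝ, (a + b - c) ^ 2 ≤ 3 * a ^ 2 + 3 * b ^ 2 + 3 * c ^ 2 := by
        intro a b c
        nlinarith [sq_nonneg (a - b), sq_nonneg (a + c), sq_nonneg (b + c)]
      have h4 : ∑ x ∈ univ \ A, (sc g (be r z) x - sc g (fun _ => 1 / N) x) ^ 2 /
          ((cyc g x).card : ℝ) ≤
          3 * ∑ x ∈ univ \ A, sc g (phz r Dm z) x ^ 2 / ((cyc g x).card : ℝ) +
          3 * ∑ x ∈ univ \ A, sc g (b z) x ^ 2 / ((cyc g x).card : ℝ) +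
          3 * ∑ x ∈ univ \ A, sc g mb x ^ 2 / ((cyc g x).card : ℝ) := by
        rw [Finset.mul_sum, Finset.mul_sum, Finset.mul_sum, ← Finset.sum_add_distrib,
          ← Finset.sum_add_distrib]
        refine Finset.sum_le_sum fun x _ => ?_
        rw [hsc x]
        have h5 := div_le_div_of_nonneg_right (h3sq (sc g (phz r Dm z) x) (sc g (b z) x)
          (sc g mb x)) (cyc_card_pos g x).le
        refine le_trans h5 (le_of_eq ?_)
        ring
      refine le_trans h4 ?_
      have hl1 : ∀ z, ∑ x, |b z x| ≤ 2 * η := fun z => by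
        rw [hb]
        exact l1_diff r hr1 hrL Dm η hη hD z
      have hl2 : ∑ x, |mb x| ≤ 2 * η := by
        have h6 : ∀ x, |mb x| ≤ (∑ z', |b z' x|) / N := by
          intro x
          rw [hmb]
          simp only
          rw [abs_div, abs_of_pos hNp]
          exact div_le_div_of_nonneg_right (Finset.abs_sum_le_sum_abs _ _) hNp.le
        refine le_trans (Finset.sum_le_sum fun x _ => h6 x) ?_
        rw [← Finset.sum_div, Finset.sum_comm, div_le_iff₀ hNp]
        refine le_trans (Finset.sum_le_sum fun z _ => hl1 z) ?_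
        rw [Finset.sum_const, nsmul_eq_mul, hcard]
        linarith
      have t1 := form_le_l1 g A (b z) (2 * η) (hl1 z)
      have t2 := form_le_l1 g A mb (2 * η) hl2
      have t3 : ∑ x ∈ univ \ A, sc g (phz r Dm z) x ^ 2 / ((cyc g x).card : ℝ) ≤
          N * ∑ x ∈ univ \ A, ((∑ y ∈ cyc g x, phz r Dm z y) / ((cyc g x).card : ℝ)) ^ 2 := by
        rw [Finset.mul_sum]
        refine Finset.sum_le_sum fun x _ => ?_
        have hcp := cyc_card_pos g x
        have hcN : ((cyc g x).card : ℝ) ≤ N := by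
          rw [← hcard]
          exact_mod_cast Finset.card_le_card (Finset.subset_univ _)
        show (∑ y ∈ cyc g x, phz r Dm z y) ^ 2 / ((cyc g x).card : ℝ) ≤ _
        rw [div_pow]
        have e3 : (∑ y ∈ cyc g x, phz r Dm z y) ^ 2 / ((cyc g x).card : ℝ) =
            ((cyc g x).card : ℝ) * ((∑ y ∈ cyc g x, phz r Dm z y) ^ 2 /
              ((cyc g x).card : ℝ) ^ 2) := by
          field_simp
        rw [e3]
        exact mul_le_mul_of_nonneg_right hcN (by positivity)
      linarith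
  -- conclusion
  have hfin : N * Qb r g - N * Qv g ≤ (2 * (A.card : ℝ)) + (3 * (N * ∑ z, ∑ x ∈ univ \ A,
      ((∑ y ∈ cyc g x, phz r Dm z y) / ((cyc g x).card : ℝ)) ^ 2) + N * (24 * η ^ 2)) := by
    rw [hvar]
    refine le_trans (Finset.sum_le_sum fun z _ => hpart z) ?_
    rw [Finset.sum_add_distrib, Finset.sum_add_distrib, Finset.sum_add_distrib,
      Finset.sum_add_distrib, Finset.sum_comm]
    rw [Finset.sum_congr rfl (fun x _ => hmean x), Finset.sum_const, Finset.sum_const,
      Finset.sum_const, nsmul_eq_mul, nsmul_eq_mul, nsmul_eq_mul, hcard, ← Finset.mul_sum,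
      ← Finset.mul_sum, mul_one, mul_div_cancel₀ _ hNp.ne']
    refine le_of_eq ?_
    ring
  have hfin2 : N * Qb r g ≤ N * (Qv g + 3 * ∑ z, ∑ x ∈ univ \ A,
      ((∑ y ∈ cyc g x, phz r Dm z y) / ((cyc g x).card : ℝ)) ^ 2 + 24 * η ^ 2 +
      2 * A.card / N) := by
    have e4 : N * (2 * (A.card : ℝ) / N) = 2 * A.card := by field_simp
    rw [mul_add, mul_add, mul_add, e4]
    linarith
  have hfin3 := le_of_mul_le_mul_left hfin2 hNp
  rw [hN] at hfin3
  convert hfin3

end torus

end Pool.Agent.Q277.LC
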