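import Pool.Agent.Q292.LC.Stm5
import Pool.Agent.Q151.LC.Walk
import Pool.Agent.Q68.LC.Rot
import Pool.Agent.Q68.LC.Bas3
import Pool.Agent.Q68.LC.Bas2
import Pool.Agent.Q154.LC.Pai

/-!
# Project LC: expectations over the coins, Markov property, closeness of a pair
(jobs LC-CLO, LC-KHA, LC-OMP of helper292)
-/

set_option autoImplicit false
set_option linter.unusedSectionVars false
set_option linter.unusedVariables false

namespace Pool.Agent.Q277.LC

open Finset Equiv Matrix Q292.LC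
open Pool.Agent.Q151.LC (jumps_shift sh_per td_jumps td_tri td_comm td_self mem_bal sig_per)
open Pool.Agent.Q68.LC (EE_congr EE_const EE_add EE_smul EE_mono EE_succ)

theorem EE_sum {ι : Type*} (n : ℕ) (δ : ℝ) (s : Finset ι) (F : ι → (ℕ → Bool) → ℝ) :
    EE n δ (fun ω => ∑ i ∈ s, F i ω) = ∑ i ∈ s, EE n δ (F i) := by
  unfold EE
  rw [sum_comm]
  exact sum_congr rfl fun S _ => by rw [mul_sum]

/-- Fubini for the coins before and after step `m` -/
theorem EE_split (m n : ℕ) (δ : ℝ) : ∀ (Φ : (ℕ → Bool) → (ℕ → Bool) → ℝ),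
    (∀ ω ω₂ η, (∀ k < m, ω k = ω₂ k) → Φ ω η = Φ ω₂ η) →
    EE (m + n) δ (fun ω => Φ ω (sh m ω)) = EE m δ (fun ω => EE n δ (fun η => Φ ω η)) := by
  induction n with
  | zero =>
    intro Φ hΦ
    rw [Nat.add_zero]
    refine EE_congr fun ω hω => ?_
    have h1 : EE 0 δ (fun η => Φ ω η) = Φ ω (fun _ => false) := by
      unfold EE
      simp
    rw [h1]
    congr 1
    funext k
    exact hω _ (Nat.le_add_left _ _)
  | succ n ih =>
    intro Φ hΦ
    rw [← Nat.add_assoc, EE_succ]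
    rw [ih Φ hΦ]
    have h2 : EE (m + n) δ (fun ω => Φ (Function.update ω (m + n) true)
        (sh m (Function.update ω (m + n) true))) =
        EE (m + n) δ (fun ω => Φ ω (Function.update (sh m ω) n true)) := by
      congr 1
      funext ω
      rw [hΦ (Function.update ω (m + n) true) ω _ (fun k hk => by
        rw [Function.update_of_ne (by omega)])]
      congr 1
      funext k
      unfold sh
      by_cases hk : k = n
      · subst hk
        rw [Function.update_self, Nat.add_comm, Function.update_self]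
      · rw [Function.update_of_ne hk, Function.update_of_ne (by omega)]
    rw [h2, ih (fun ω η => Φ ω (Function.update η n true)) (fun ω ω₂ η h => hΦ ω ω₂ _ h)]
    have h3 : (fun ω => EE (n + 1) δ (fun η => Φ ω η)) = (fun ω => (1 - δ) * EE n δ (fun η => Φ ω η) +
        δ * EE n δ (fun η => Φ ω (Function.update η n true))) := by
      funext ω
      rw [EE_succ]
    rw [h3, EE_add, EE_smul, EE_smul]

theorem EE_trunc (m n : ℕ) (δ : ℝ) (F : (ℕ → Bool) → ℝ) (hmn : m ≤ n)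
    (hF : ∀ ω ω₂, (∀ k < m, ω k = ω₂ k) → F ω = F ω₂) : EE n δ F = EE m δ F := by
  obtain ⟨t, rfl⟩ : ∃ t, n = m + t := ⟨n - m, by omega⟩
  have h := EE_split m t δ (fun ω _ => F ω) (fun ω ω₂ _ h => hF ω ω₂ h)
  rw [h]
  congr 1
  funext ω
  rw [EE_const]

section torus

variable {d L : ℕ} [NeZero L]

theorem card_bal_le (z : Fin d → ZMod L) (r : ℕ) : (bal z r).card ≤ (2 * r + 1) ^ d := by
  classical
  have hsub : bal z r ⊆ Fintype.piFinset (fun i : Fin d =>
      (Finset.Icc (-(r : ℤ)) r).image (fun t : ℤ => z i - (t : ZMod L))) := by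
    intro y hy
    rw [mem_bal] at hy
    rw [Fintype.mem_piFinset]
    intro i
    rw [Finset.mem_image]
    have h1 : ((z i - y i).valMinAbs).natAbs ≤ r := by
      refine le_trans ?_ hy
      unfold td
      exact Finset.single_le_sum (f := fun i => ((z i - y i).valMinAbs).natAbs)
        (fun _ _ => Nat.zero_le _) (Finset.mem_univ i)
    refine ⟨(z i - y i).valMinAbs, ?_, ?_⟩
    · rw [Finset.mem_Icc]
      omega
    · rw [ZMod.coe_valMinAbs]
      ring
  refine le_trans (Finset.card_le_card hsub) ?_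
  rw [Fintype.card_piFinset]
  calc ∏ i : Fin d, ((Finset.Icc (-(r : ℤ)) r).image (fun t : ℤ => z i - (t : ZMod L))).card
      ≤ ∏ i : Fin d, (2 * r + 1) := by
        refine Finset.prod_le_prod' fun i _ => ?_
        refine le_trans Finset.card_image_le ?_
        rw [Int.card_Icc]
        omega
    _ = (2 * r + 1) ^ d := by
        rw [Finset.prod_const, Finset.card_univ, Fintype.card_fin]

theorem gp_local (σ : ℕ → (Fin d → ZMod L) × Fin d) {ω ω₂ : ℕ → Bool} {m : ℕ}
    (h : ∀ k < m, ω k = ω₂ k) {k : ℕ} (hk : k ≤ m) : gp (ed ∘ σ) ω k = gp (ed ∘ σ) ω₂ k :=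
  Pool.Agent.Q68.LC.gp_congr (fun _ _ => rfl) (fun l hl => h l (by omega))

/-- probability that the pair is close at a given time -/
theorem close_le (e : ℕ → (Fin d → ZMod L) × (Fin d → ZMod L)) (n : ℕ) (δ S : ℝ)
    (hδ0 : 0 ≤ δ) (hδ1 : δ ≤ 1) (hS : ∀ x y, PP e δ n x y ≤ S) (hS0 : 0 ≤ S)
    (x y : Fin d → ZMod L) (hxy : x ≠ y) :
    EE n δ (fun ω => if td (gp e ω n x) (gp e ω n y) ≤ 3 then (1 : ℝ) else 0) ≤ 49 ^ d * S := by
  classical
  obtain ⟨b1, b2, -⟩ := Pool.Agent.Q68.LC.bas2 (Fin d → ZMod L) e (fun _ => false) ∅ δ hδ0 hδ1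
  have h1 : ∀ ω : ℕ → Bool, (if td (gp e ω n x) (gp e ω n y) ≤ 3 then (1 : ℝ) else 0) ≤
      ∑ z : Fin d → ZMod L, (if gp e ω n x ∈ bal z 3 then (1 : ℝ) else 0) *
        (if gp e ω n y ∈ bal z 3 then (1 : ℝ) else 0) := by
    intro ω
    have hn : ∀ z ∈ (Finset.univ : Finset (Fin d → ZMod L)),
        0 ≤ (if gp e ω n x ∈ bal z 3 then (1 : ℝ) else 0) *
          (if gp e ω n y ∈ bal z 3 then (1 : ℝ) else 0) := by
      intro z _
      split_ifs <;> norm_num
    split_ifs with hc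
    · refine le_trans ?_ (Finset.single_le_sum hn (Finset.mem_univ (gp e ω n x)))
      rw [if_pos (by rw [mem_bal, td_self]; omega), if_pos (by rw [mem_bal]; exact hc)]
      norm_num
    · exact Finset.sum_nonneg hn
  refine le_trans (EE_mono hδ0 hδ1 h1) ?_
  rw [EE_sum]
  have h2 : ∀ z ∈ (Finset.univ : Finset (Fin d → ZMod L)),
      EE n δ (fun ω => (if gp e ω n x ∈ bal z 3 then (1 : ℝ) else 0) *
        (if gp e ω n y ∈ bal z 3 then (1 : ℝ) else 0)) ≤
      (7 ^ d * S) * ∑ v, PP e δ n y v * (if v ∈ bal z 3 then (1 : ℝ) else 0) := by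
    intro z _
    have hp := Pool.Agent.Q154.LC.pai (Fin d → ZMod L) e n δ
      (fun v => if v ∈ bal z 3 then (1 : ℝ) else 0) x y hδ0 hδ1
      (fun v => by split_ifs <;> norm_num) hxy
    refine le_trans hp ?_
    have e2 : (PP e δ n *ᵥ (fun v => if v ∈ bal z 3 then (1 : ℝ) else 0)) y =
        ∑ v, PP e δ n y v * (if v ∈ bal z 3 then (1 : ℝ) else 0) := rfl
    rw [e2]
    refine mul_le_mul_of_nonneg_right ?_ (Finset.sum_nonneg fun v _ =>
      mul_nonneg (b1 n y v) (by split_ifs <;> norm_num))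
    show ∑ v, PP e δ n x v * (if v ∈ bal z 3 then (1 : ℝ) else 0) ≤ 7 ^ d * S
    calc ∑ v, PP e δ n x v * (if v ∈ bal z 3 then (1 : ℝ) else 0)
        = ∑ v ∈ bal z 3, PP e δ n x v := by
          rw [← Finset.sum_filter_add_sum_filter_not Finset.univ (fun v => v ∈ bal z 3)]
          have t1 : ∑ v ∈ Finset.univ.filter (fun v => ¬ v ∈ bal z 3),
              PP e δ n x v * (if v ∈ bal z 3 then (1 : ℝ) else 0) = 0 := by
            refine Finset.sum_eq_zero fun v hv => ?_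
            rw [if_neg (Finset.mem_filter.1 hv).2, mul_zero]
          rw [t1, add_zero]
          have t2 : Finset.univ.filter (fun v => v ∈ bal z 3) = bal z 3 := by
            ext v; simp
          rw [t2]
          refine Finset.sum_congr rfl fun v hv => ?_
          rw [if_pos hv, mul_one]
      _ ≤ ∑ v ∈ bal z 3, S := Finset.sum_le_sum fun v _ => hS x v
      _ = (bal z 3).card * S := by rw [Finset.sum_const, nsmul_eq_mul]
      _ ≤ 7 ^ d * S := by
          refine mul_le_mul_of_nonneg_right ?_ hS0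
          have := card_bal_le z 3
          have h7 : (2 * 3 + 1 : ℕ) = 7 := rfl
          rw [h7] at this
          exact_mod_cast this
  refine le_trans (Finset.sum_le_sum h2) ?_
  rw [← Finset.mul_sum, Finset.sum_comm]
  have h3 : ∑ v, ∑ z, PP e δ n y v * (if v ∈ bal z 3 then (1 : ℝ) else 0) ≤ 7 ^ d := by
    calc ∑ v, ∑ z, PP e δ n y v * (if v ∈ bal z 3 then (1 : ℝ) else 0)
        ≤ ∑ v, PP e δ n y v * 7 ^ d := by
          refine Finset.sum_le_sum fun v _ => ?_
          rw [← Finset.mul_sum]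
          refine mul_le_mul_of_nonneg_left ?_ (b1 n y v)
          rw [← Finset.sum_filter, Finset.sum_const, nsmul_eq_mul, mul_one]
          have t3 : Finset.univ.filter (fun z : Fin d → ZMod L => v ∈ bal z 3) = bal v 3 := by
            ext z
            rw [Finset.mem_filter, mem_bal, mem_bal, td_comm]
            simp
          rw [t3]
          have := card_bal_le v 3
          have h7 : (2 * 3 + 1 : ℕ) = 7 := rfl
          rw [h7] at this
          exact_mod_cast this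
      _ = 7 ^ d := by
          rw [← Finset.sum_mul]
          have : ∑ v, PP e δ n y v = 1 := b2 n y
          rw [this, one_mul]
  calc 7 ^ d * S * ∑ v, ∑ z, PP e δ n y v * (if v ∈ bal z 3 then (1 : ℝ) else 0)
      ≤ 7 ^ d * S * 7 ^ d := mul_le_mul_of_nonneg_left h3 (by positivity)
    _ = 49 ^ d * S := by
        have : (49 : ℝ) ^ d = 7 ^ d * 7 ^ d := by rw [← mul_pow]; norm_num
        rw [this]; ring

theorem clo_eq (σ : ℕ → (Fin d → ZMod L) × Fin d) (S : ℕ) (ω : ℕ → Bool) (x y : Fin d → ZMod L) :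
    (clo σ S ω x y : ℝ) = ∑ s ∈ Finset.range S,
      if td (gp (ed ∘ σ) ω (s * ms d L) x) (gp (ed ∘ σ) ω (s * ms d L) y) ≤ 3 then (1 : ℝ) else 0 := by
  unfold clo
  rw [Finset.card_filter]
  push_cast
  rfl

/-- expected closeness as a sum of probabilities -/
theorem EE_clo (σ : ℕ → (Fin d → ZMod L) × Fin d) (S n : ℕ) (δ : ℝ) (hn : S * ms d L ≤ n)
    (x y : Fin d → ZMod L) :
    EE n δ (fun ω => (clo σ S ω x y : ℝ)) = ∑ s ∈ Finset.range S, EE (s * ms d L) δ (fun ω =>
      if td (gp (ed ∘ σ) ω (s * ms d L) x) (gp (ed ∘ σ) ω (s * ms d L) y) ≤ 3 then (1 : ℝ)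
        else 0) := by
  have h : (fun ω => (clo σ S ω x y : ℝ)) = (fun ω => ∑ s ∈ Finset.range S,
      if td (gp (ed ∘ σ) ω (s * ms d L) x) (gp (ed ∘ σ) ω (s * ms d L) y) ≤ 3 then (1 : ℝ)
        else 0) := by
    funext ω
    exact clo_eq σ S ω x y
  rw [h, EE_sum]
  refine Finset.sum_congr rfl fun s hs => ?_
  rw [Finset.mem_range] at hs
  refine EE_trunc _ _ δ _ (le_trans (Nat.mul_le_mul_right _ hs.le) hn) ?_
  intro ω ω₂ h2
  rw [gp_local σ h2 le_rfl]

/-- sum of the powers -/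
theorem sum_three_half (δ : ℝ) (hδ : 0 < δ) (N : ℕ) :
    δ * ∑ s ∈ Finset.range N, 1 / ((1 + (s : ℝ) * δ) * Real.sqrt (1 + (s : ℝ) * δ)) ≤
      δ + 2 - 2 / Real.sqrt (1 + ((N : ℝ) - 1) * δ) ∨ N = 0 := by
  rcases Nat.eq_zero_or_pos N with h0 | h0
  · exact Or.inr h0
  left
  induction N, h0 using Nat.le_induction with
  | base =>
    simp
  | succ N hN ih =>
    rw [Finset.sum_range_succ, mul_add]
    have hN1 : (1 : ℝ) ≤ N := by exact_mod_cast hN
    obtain ⟨a, ha⟩ : ∃ a, a = 1 + ((N : ℝ) - 1) * δ := ⟨_, rfl⟩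
    obtain ⟨b, hb⟩ : ∃ b, b = 1 + (N : ℝ) * δ := ⟨_, rfl⟩
    have hab : b = a + δ := by rw [ha, hb]; ring
    have ha1 : 1 ≤ a := by
      rw [ha]
      have : 0 ≤ ((N : ℝ) - 1) * δ := mul_nonneg (by linarith) hδ.le
      linarith
    have hcast : (((N + 1 : ℕ) : ℝ) - 1) = N := by push_cast; ring
    rw [hcast, ← hb]
    rw [← ha] at ih
    have hsa : 0 < Real.sqrt a := Real.sqrt_pos.2 (by linarith)
    have hsb : 0 < Real.sqrt b := Real.sqrt_pos.2 (by linarith)
    have hsab : Real.sqrt a ≤ Real.sqrt b := Real.sqrt_le_sqrt (by linarith)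
    have hsa2 : Real.sqrt a ^ 2 = a := Real.sq_sqrt (by linarith)
    have hsb2 : Real.sqrt b ^ 2 = b := Real.sq_sqrt (by linarith)
    have key : δ * (1 / (b * Real.sqrt b)) ≤ 2 / Real.sqrt a - 2 / Real.sqrt b := by
      have e1 : δ = (Real.sqrt b - Real.sqrt a) * (Real.sqrt b + Real.sqrt a) := by
        have : (Real.sqrt b - Real.sqrt a) * (Real.sqrt b + Real.sqrt a) =
          Real.sqrt b ^ 2 - Real.sqrt a ^ 2 := by ring
        rw [this, hsa2, hsb2, hab]; ring
      obtain ⟨p, hp⟩ : ∃ p, p = Real.sqrt a := ⟨_, rfl⟩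
      obtain ⟨r, hr⟩ : ∃ r, r = Real.sqrt b := ⟨_, rfl⟩
      rw [← hp, ← hr] at e1
      rw [← hp] at hsa hsab hsa2 ⊢
      rw [← hr] at hsb hsab hsb2 ⊢
      have e2 : b * r = r ^ 3 := by rw [← hsb2]; ring
      rw [e2, e1]
      have e3 : 2 / p - 2 / r = 2 * (r - p) / (p * r) := by
        field_simp
      rw [e3, mul_one_div, div_le_div_iff₀ (by positivity) (by positivity)]
      have e4 : 0 ≤ r - p := by linarith
      have e5 : (r + p) * (p * r) ≤ 2 * r ^ 3 := by nlinarith [mul_pos hsa hsb]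
      calc (r - p) * (r + p) * (p * r) = (r - p) * ((r + p) * (p * r)) := by ring
        _ ≤ (r - p) * (2 * r ^ 3) := mul_le_mul_of_nonneg_left e5 e4
        _ = 2 * (r - p) * r ^ 3 := by ring
    linarith

theorem t_clo (hF : Q292.LC.S_FRE) : Q292.LC.S_CLO := by
  intro d hd
  obtain ⟨C, hC1, hC⟩ := hF d (by omega)
  refine ⟨⌈49 ^ d * C * 4⌉₊, ?_, ?_⟩
  · rw [Nat.one_le_ceil_iff]
    positivity
  intro L _ hL K hKL
  obtain ⟨q₀, hq₀⟩ := hC L hL K
  refine ⟨max q₀ 2, ?_⟩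
  intro q hq σ hσ δ hδ1 hδ2 x y hxy
  have hqq : q₀ ≤ q := le_trans (le_max_left _ _) hq
  have hq2 : 2 ≤ q := le_trans (le_max_right _ _) hq
  obtain ⟨f1, -, -⟩ := hq₀ q hqq σ hσ δ hδ1 hδ2
  have hqR : (2 : ℝ) ≤ q := by exact_mod_cast hq2
  have hδ0 : 0 < δ := by
    by_contra h
    push Not at h
    have : δ * q ≤ 0 := mul_nonpos_of_nonpos_of_nonneg h (by linarith)
    linarith
  have hδle : δ ≤ 1 := by nlinarith
  have hn : K * q * ms d L ≤ K * (q * ms d L) := by rw [mul_assoc]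
  rw [EE_clo σ (K * q) _ δ hn x y]
  have hterm : ∀ s ∈ Finset.range (K * q), EE (s * ms d L) δ (fun ω =>
      if td (gp (ed ∘ σ) ω (s * ms d L) x) (gp (ed ∘ σ) ω (s * ms d L) y) ≤ 3 then (1 : ℝ)
        else 0) ≤ 49 ^ d * (C * (1 / ((1 + (s : ℝ) * δ) * Real.sqrt (1 + (s : ℝ) * δ)) +
          1 / (L : ℝ) ^ d)) := by
    intro s hs
    rw [Finset.mem_range] at hs
    have hs0 : (0 : ℝ) ≤ (s : ℝ) * δ := by positivity
    have ha1 : 1 ≤ 1 + (s : ℝ) * δ := by linarith
    have hpow : (1 + (s : ℝ) * δ) ^ (-(d / 2 : ℝ)) ≤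
        1 / ((1 + (s : ℝ) * δ) * Real.sqrt (1 + (s : ℝ) * δ)) := by
      have hd3 : (3 : ℝ) ≤ d := by exact_mod_cast hd
      have h1 : (1 + (s : ℝ) * δ) ^ (-(d / 2 : ℝ)) ≤ (1 + (s : ℝ) * δ) ^ (-(3 / 2 : ℝ)) :=
        Real.rpow_le_rpow_of_exponent_le ha1 (by linarith)
      refine le_trans h1 (le_of_eq ?_)
      rw [Real.rpow_neg (by linarith), one_div]
      congr 1
      have : (3 / 2 : ℝ) = 1 + 1 / 2 := by norm_num
      rw [this, Real.rpow_add (by linarith), Real.rpow_one, Real.sqrt_eq_rpow]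
    have hC0 : 0 ≤ C := by linarith
    have hS : ∀ x y, PP (ed ∘ σ) δ (s * ms d L) x y ≤
        C * (1 / ((1 + (s : ℝ) * δ) * Real.sqrt (1 + (s : ℝ) * δ)) + 1 / (L : ℝ) ^ d) := by
      intro x y
      refine le_trans (f1 s hs.le x y) ?_
      refine mul_le_mul_of_nonneg_left ?_ hC0
      linarith
    exact close_le (ed ∘ σ) (s * ms d L) δ _ hδ0.le hδle hS (by positivity) x y hxy
  refine le_trans (Finset.sum_le_sum hterm) ?_
  rw [← Finset.mul_sum, ← Finset.mul_sum, Finset.sum_add_distrib, Finset.sum_const,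
    Finset.card_range, nsmul_eq_mul]
  have hLpos : (0 : ℝ) < (L : ℝ) ^ d := by
    have : (0 : ℝ) < L := by exact_mod_cast Nat.pos_of_ne_zero (NeZero.ne L)
    positivity
  have hsum : ∑ s ∈ Finset.range (K * q), 1 / ((1 + (s : ℝ) * δ) * Real.sqrt (1 + (s : ℝ) * δ)) ≤
      1 + 2 * q := by
    rcases sum_three_half δ hδ0 (K * q) with h | h
    · have h2 : 0 ≤ 2 / Real.sqrt (1 + (((K * q : ℕ) : ℝ) - 1) * δ) := by positivity
      have h3 : δ * ∑ s ∈ Finset.range (K * q),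
          1 / ((1 + (s : ℝ) * δ) * Real.sqrt (1 + (s : ℝ) * δ)) ≤ δ * (1 + 2 * q) := by
        have : δ * (1 + 2 * q) = δ + 2 * (δ * q) := by ring
        rw [this]
        linarith
      exact le_of_mul_le_mul_left h3 hδ0
    · rw [h]
      simp
      positivity
  have hKq : ((K * q : ℕ) : ℝ) * (1 / (L : ℝ) ^ d) ≤ q := by
    rw [mul_one_div, div_le_iff₀ hLpos]
    push_cast
    rw [mul_comm]
    refine mul_le_mul_of_nonneg_left ?_ (by positivity)
    exact_mod_cast hKL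
  have hfin : ∑ s ∈ Finset.range (K * q), 1 / ((1 + (s : ℝ) * δ) * Real.sqrt (1 + (s : ℝ) * δ)) +
      ((K * q : ℕ) : ℝ) * (1 / (L : ℝ) ^ d) ≤ 4 * q := by linarith
  have hceil : 49 ^ d * C * 4 ≤ (⌈49 ^ d * C * 4⌉₊ : ℝ) := Nat.le_ceil _
  calc 49 ^ d * (C * (∑ s ∈ Finset.range (K * q),
        1 / ((1 + (s : ℝ) * δ) * Real.sqrt (1 + (s : ℝ) * δ)) +
        ((K * q : ℕ) : ℝ) * (1 / (L : ℝ) ^ d)))
      ≤ 49 ^ d * (C * (4 * q)) := by
        refine mul_le_mul_of_nonneg_left (mul_le_mul_of_nonneg_left hfin (by linarith)) (by positivity)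
    _ = (49 ^ d * C * 4) * q := by ring
    _ ≤ (⌈49 ^ d * C * 4⌉₊ : ℝ) * q := mul_le_mul_of_nonneg_right hceil (by positivity)

end torus

end Pool.Agent.Q277.LC
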