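import Pool.Agent.Q292.LC.Stm7
import Pool.Agent.Q277.LC.Ex
import Pool.Agent.Q257.LC.BadpU

/-!
# Project LC: marked cycles (jobs LC-PEB, LC-MRK, LC-DME of helper292)
-/

set_option autoImplicit false
set_option linter.unusedSectionVars false
set_option linter.unusedVariables false

namespace Pool.Agent.Q277.LC

open Finset Equiv Matrix Q292.LC
open Pool.Agent.Q68.LC (EE_congr EE_const EE_add EE_smul EE_mono EE_succ)

theorem p1_all : S_P1 := Pool.Agent.Q176.LC.p1 Pool.Agent.Q153.LC.p4

section gen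

variable {V : Type} [Fintype V] [DecidableEq V]

/-- the weights of the invariant sets sum up to one -/
theorem wt_sum (g : Perm V) (w : ℝ) (h0 : 0 ≤ w) (h1 : w < 1) :
    ∑ A : Finset V, (if Inv g A then w ^ A.card * dS w (univ \ A) (pm g) else 0) = 1 := by
  have h := p1_all V g w ∅ h0 h1
  simpa using h

theorem wt_nonneg (g : Perm V) (w : ℝ) (h0 : 0 ≤ w) (h1 : w < 1) (A : Finset V) :
    0 ≤ w ^ A.card * dS w (univ \ A) (pm g) := by
  have := (Pool.Agent.Q153.LC.p4 V g 1 w (univ \ A) h0 h1).1.1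
  positivity

/-- an invariant set which contains `x` -/
theorem wt_point (g : Perm V) (w : ℝ) (h0 : 0 ≤ w) (h1 : w < 1) (x : V) :
    ∑ A : Finset V, (if Inv g A ∧ x ∈ A then w ^ A.card * dS w (univ \ A) (pm g) else 0) =
      w ^ (cyc g x).card := by
  have h := p1_all V g w (cyc g x) h0 h1
  have h2 : ∑ A : Finset V, (if Inv g A ∧ x ∈ A then w ^ A.card * dS w (univ \ A) (pm g) else 0) =
      ∑ A : Finset V, w ^ (cyc g x).card * (if Inv g A ∧ Disjoint A (cyc g x) then
        w ^ A.card * dS w (univ \ (A ∪ cyc g x)) (pm g) else 0) := by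
    simp_rw [mul_ite, mul_zero]
    rw [← Finset.sum_filter, ← Finset.sum_filter]
    refine Finset.sum_bij' (fun A _ => A \ cyc g x) (fun A _ => A ∪ cyc g x) ?_ ?_ ?_ ?_ ?_
    · intro A hA
      rw [Finset.mem_filter] at hA ⊢
      exact ⟨Finset.mem_univ _, Pool.Agent.Q153.LC.inv_sdiff g A _ hA.2.1
        (Pool.Agent.Q153.LC.inv_cyc g x), Finset.sdiff_disjoint⟩
    · intro A hA
      rw [Finset.mem_filter] at hA ⊢
      refine ⟨Finset.mem_univ _, Pool.Agent.Q153.LC.inv_union g A _ hA.2.1
        (Pool.Agent.Q153.LC.inv_cyc g x), ?_⟩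
      exact Finset.mem_union_right _ ((Pool.Agent.Q153.LC.mem_cyc g x x).2 (Perm.SameCycle.refl g x))
    · intro A hA
      rw [Finset.mem_filter] at hA
      exact Finset.sdiff_union_of_subset (Pool.Agent.Q153.LC.cyc_sub g A hA.2.1 x hA.2.2)
    · intro A hA
      rw [Finset.mem_filter] at hA
      exact Finset.union_sdiff_cancel_right hA.2.2
    · intro A hA
      rw [Finset.mem_filter] at hA
      have hs := Pool.Agent.Q153.LC.cyc_sub g A hA.2.1 x hA.2.2
      rw [Finset.sdiff_union_of_subset hs, ← mul_assoc, ← pow_add]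
      congr 2
      rw [Finset.card_sdiff_of_subset hs]
      have := Finset.card_le_card hs
      omega
  rw [h2, ← Finset.mul_sum, h, mul_one]

open Classical in
theorem peb : Q292.LC.S_PEB := by
  intro V _ _ e n δ w hδ0 hδ1 hw0 hw1
  refine ⟨?_, ?_, ?_, ?_, ?_, ?_⟩
  · intro F
    unfold PE
    congr 1
    funext ω
    have : (∑ A : Finset V, if Inv (gp e ω n) A then
        w ^ A.card * dS w (univ \ A) (pm (gp e ω n)) * F ω else 0) =
        (∑ A : Finset V, if Inv (gp e ω n) A then
        w ^ A.card * dS w (univ \ A) (pm (gp e ω n)) else 0) * F ω := by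
      rw [Finset.sum_mul]
      refine Finset.sum_congr rfl fun A _ => ?_
      split_ifs <;> simp
    rw [this, wt_sum _ w hw0 hw1, one_mul]
  · intro F G
    unfold PE
    rw [← EE_add]
    congr 1
    funext ω
    rw [← Finset.sum_add_distrib]
    refine Finset.sum_congr rfl fun A _ => ?_
    split_ifs
    · ring
    · simp
  · intro c F
    unfold PE
    rw [← EE_smul]
    congr 1
    funext ω
    rw [Finset.mul_sum]
    refine Finset.sum_congr rfl fun A _ => ?_
    split_ifs
    · ring
    · simp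
  · intro F G hFG
    unfold PE
    refine EE_mono hδ0 hδ1 fun ω => Finset.sum_le_sum fun A _ => ?_
    split_ifs with hi
    · exact mul_le_mul_of_nonneg_left (hFG ω A hi) (wt_nonneg _ w hw0 hw1 A)
    · exact le_rfl
  · intro B
    unfold PE PW
    congr 1
    funext ω
    refine Finset.sum_congr rfl fun A _ => ?_
    by_cases h1 : Inv (gp e ω n) A <;> by_cases h2 : B ω A <;> simp [h1, h2]
  · intro x
    unfold PW
    congr 1
    funext ω
    rw [← wt_point (gp e ω n) w hw0 hw1 x]
    refine Finset.sum_congr rfl fun A _ => ?_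
    congr

theorem Sh_single (g : Perm V) (x : V) (R : Finset V) : Sh {x} {x} g R ↔ Inv g R ∧ x ∈ R := by
  constructor
  · rintro ⟨h1, h2, h3⟩
    have hx : x ∈ R := by
      have : x ∈ R ∩ {x} := by rw [h1]; exact Finset.mem_singleton_self x
      exact (Finset.mem_inter.1 this).1
    refine ⟨?_, hx⟩
    intro a ha
    have := h2 a ha
    rw [Finset.mem_union, Finset.mem_singleton] at this
    rcases this with h | h
    · exact h
    · rw [h]; exact hx
  · rintro ⟨h1, hx⟩
    refine ⟨?_, fun a ha => Finset.mem_union_left _ (h1 a ha), ?_⟩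
    · ext y
      rw [Finset.mem_inter, Finset.mem_singleton]
      constructor
      · exact fun h => h.2
      · rintro rfl
        exact ⟨hx, rfl⟩
    · intro a ha _
      refine Pool.Agent.Q153.LC.inv_same g R h1 a _ ha ?_
      exact Perm.sameCycle_symm_apply_right.2 (Perm.SameCycle.refl g a)

open Classical in
theorem mrk : Q292.LC.S_MRK := by
  intro V _ _ e n δ w κ Gd hδ0 hδ1 hw0 hw1 hκ hR hmon hG x
  have h := Pool.Agent.Q257.LC.arc_all V e n δ w κ Gd hδ0 hδ1 hw0 hw1 hκ hR hmon hG {x} {x}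
    (Finset.Subset.refl _)
  rw [Finset.card_singleton, pow_one, Nat.cast_one, one_mul] at h
  refine le_trans (le_of_eq ?_) h
  unfold PW WW
  congr 1
  funext ω
  refine Finset.sum_congr rfl fun R _ => ?_
  by_cases h1 : Inv (gp e ω n) R ∧ x ∈ R
  · have h2 : Sh {x} {x} (gp e ω n) R := (Sh_single _ _ _).2 h1
    have h3 : R ∪ {x} = R := by
      rw [Finset.union_eq_left, Finset.singleton_subset_iff]
      exact h1.2
    rw [h3]
    by_cases h4 : Gd ω R
    · rw [if_pos ⟨h1.1, h1.2, h4⟩, if_pos ⟨h2, h4⟩]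
    · rw [if_neg (fun h5 => h4 h5.2.2), if_neg (fun h5 => h4 h5.2)]
  · rw [if_neg (fun h5 => h1 ⟨h5.1, h5.2.1⟩), if_neg (fun h5 => h1 ((Sh_single _ _ _).1 h5.1))]

theorem dme : Q292.LC.S_DME := by
  intro V _ _ e n A δ ε ω ω' h
  obtain ⟨h1, h2⟩ := Pool.Agent.Q68.LC.agree h
  show Dmg e ω A δ ε n = Dmg e ω' A δ ε n
  have hcc : ∀ x, cc e ω A δ n x = cc e ω' A δ n x := by
    intro x
    unfold cc
    congr 1
    refine Finset.sum_congr rfl fun k hk => ?_
    rw [Finset.mem_range] at hk
    by_cases ht : tch e ω A k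
    · rw [if_pos ht, if_pos ((h2 k hk).1 ht), h k hk ht]
    · rw [if_neg ht, if_neg (fun h3 => ht ((h2 k hk).2 h3))]
  unfold Dmg
  simp only [hcc]

end gen

end Pool.Agent.Q277.LC
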