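import Pool.Agent.Q292.LC.Stm7
import Pool.Agent.Q277.LC.Pe
import Pool.Agent.Q229.LC.Eng
import Pool.Agent.Q257.LC.L1

/-!
# Project LC: resolvent bound for the unmarked cycles (job LC-RES of helper292)
-/

set_option autoImplicit false
set_option linter.unusedSectionVars false
set_option linter.unusedVariables false

namespace Pool.Agent.Q277.LC

open Finset Equiv Matrix Q292.LC
open Pool.Agent.Q68.LC (EE_congr EE_const EE_add EE_smul EE_mono EE_succ)

section gen

variable {V : Type} [Fintype V] [DecidableEq V]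

theorem pm_mulVec (g : Perm V) (f : V → ℝ) (x : V) : (pm g *ᵥ f) x = f (g x) := by
  unfold pm
  simp [Matrix.mulVec, dotProduct]

theorem det_rank_one (M : Matrix V V ℝ) (hM : M.det ≠ 0) (φ : V → ℝ) :
    (M + Matrix.of fun a b => φ a * φ b).det = M.det * (1 + φ ⬝ᵥ (M⁻¹ *ᵥ φ)) := by
  have h := Matrix.det_add_replicateCol_mul_replicateRow (ι := Unit)
    (A := M) (isUnit_iff_ne_zero.2 hM) φ φ
  have e1 : (Matrix.replicateCol Unit φ * Matrix.replicateRow Unit φ) =
      Matrix.of fun a b => φ a * φ b := by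
    ext a b
    simp [Matrix.mul_apply]
  rw [e1] at h
  rw [h]
  congr 1
  rw [Matrix.det_unique]
  simp only [Matrix.add_apply, Matrix.one_apply_eq]
  congr 1
  rw [Matrix.mul_assoc, Matrix.mul_apply]
  simp only [Matrix.replicateRow_apply, dotProduct]
  refine Finset.sum_congr rfl fun x _ => ?_
  congr 1

/-- sums over an invariant set of means over cycles -/
theorem sum_cyc_mean (g : Perm V) (A : Finset V) (hA : Inv g A) (G : V → ℝ) :
    ∑ x ∈ univ \ A, (∑ y ∈ cyc g x, G y) / ((cyc g x).card : ℝ) = ∑ x ∈ univ \ A, G x := by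
  have hself : ∀ x, x ∈ cyc g x := fun x =>
    (Pool.Agent.Q153.LC.mem_cyc g x x).2 (Perm.SameCycle.refl g x)
  have hpos : ∀ x, ((cyc g x).card : ℝ) ≠ 0 := fun x => by
    have : 0 < (cyc g x).card := Finset.card_pos.2 ⟨x, hself x⟩
    exact_mod_cast this.ne'
  have h1 : ∑ x ∈ univ \ A, (∑ y ∈ cyc g x, G y) / ((cyc g x).card : ℝ) =
      ∑ x ∈ univ \ A, ∑ y ∈ univ \ A, (if g.SameCycle x y then G y / ((cyc g x).card : ℝ) else 0) := by
    refine Finset.sum_congr rfl fun x hx => ?_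
    rw [Finset.sum_div, ← Finset.sum_filter]
    refine Finset.sum_congr ?_ fun _ _ => rfl
    ext y
    rw [Finset.mem_filter, Pool.Agent.Q153.LC.mem_cyc]
    constructor
    · intro h
      refine ⟨?_, h⟩
      rw [Finset.mem_sdiff]
      refine ⟨Finset.mem_univ _, fun hy => ?_⟩
      rw [Finset.mem_sdiff] at hx
      exact hx.2 (Pool.Agent.Q153.LC.inv_same g A hA y x hy h.symm)
    · exact fun h => h.2
  rw [h1, Finset.sum_comm]
  refine Finset.sum_congr rfl fun y hy => ?_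
  have h2 : ∀ x ∈ univ \ A, (if g.SameCycle x y then G y / ((cyc g x).card : ℝ) else 0) =
      (if g.SameCycle x y then G y / ((cyc g y).card : ℝ) else 0) := by
    intro x _
    split_ifs with h
    · rw [Pool.Agent.Q153.LC.cyc_eq g x y ((Pool.Agent.Q153.LC.mem_cyc g x y).2 h)]
    · rfl
  rw [Finset.sum_congr rfl h2, ← Finset.sum_filter, Finset.sum_const, nsmul_eq_mul]
  have h3 : (univ \ A).filter (fun x => g.SameCycle x y) = cyc g y := by
    ext x
    rw [Finset.mem_filter, Pool.Agent.Q153.LC.mem_cyc]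
    constructor
    · exact fun h => h.2.symm
    · intro h
      refine ⟨?_, h.symm⟩
      rw [Finset.mem_sdiff] at hy ⊢
      refine ⟨Finset.mem_univ _, fun hx => hy.2 ?_⟩
      exact Pool.Agent.Q153.LC.inv_same g A hA x y hx h.symm
  rw [h3]
  field_simp [hpos y]

/-- the lower bound for the resolvent form of a permutation -/
theorem res_low (g : Perm V) (w : ℝ) (h0 : 0 ≤ w) (h1 : w < 1) (A : Finset V) (hA : Inv g A)
    (φ : V → ℝ) (hφ : ∀ a ∈ A, φ a = 0) :
    ∑ x ∈ univ \ A, ((∑ y ∈ cyc g x, φ y) / ((cyc g x).card : ℝ)) ^ 2 ≤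
      (1 - w) * (φ ⬝ᵥ ((1 - w • (dg (univ \ A) * pm g))⁻¹ *ᵥ φ)) := by
  have hdet : 0 < (1 - w • (dg (univ \ A) * pm g)).det :=
    (Pool.Agent.Q153.LC.p4 V g 1 w (univ \ A) h0 h1).1.1
  obtain ⟨f, hf⟩ : ∃ f, f = (1 - w • (dg (univ \ A) * pm g))⁻¹ *ᵥ φ := ⟨_, rfl⟩
  have hMf : (1 - w • (dg (univ \ A) * pm g)) *ᵥ f = φ := by
    rw [hf, Matrix.mulVec_mulVec, Matrix.mul_nonsing_inv _ (isUnit_iff_ne_zero.2 hdet.ne'),
      Matrix.one_mulVec]
  have hval : ∀ x, φ x = f x - w * (if x ∈ univ \ A then f (g x) else 0) := by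
    intro x
    have := Pool.Agent.Q229.LC.Eng.res_apply (pm g) w (univ \ A) f x
    rw [hMf] at this
    rw [this, pm_mulVec]
  have hin : ∀ x ∈ univ \ A, φ x = f x - w * f (g x) := fun x hx => by
    rw [hval x, if_pos hx]
  rw [← hf]
  -- the inverse image of the invariant set
  have hginv : ∀ x, g x ∈ univ \ A ↔ x ∈ univ \ A := by
    intro x
    rw [Finset.mem_sdiff, Finset.mem_sdiff]
    constructor
    · rintro ⟨-, h⟩
      exact ⟨Finset.mem_univ _, fun hx => h (hA x hx)⟩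
    · rintro ⟨-, h⟩
      refine ⟨Finset.mem_univ _, fun hx => h ?_⟩
      exact Pool.Agent.Q153.LC.inv_same g A hA (g x) x hx
        (Perm.sameCycle_apply_left.mpr (Perm.SameCycle.refl g x))
  have hshift : ∀ G : V → ℝ, ∑ x ∈ univ \ A, G (g x) = ∑ x ∈ univ \ A, G x := by
    intro G
    refine Finset.sum_nbij' (fun x => g x) (fun x => g.symm x) ?_ ?_ ?_ ?_ ?_
    · intro x hx
      exact (hginv x).2 hx
    · intro x hx
      rw [← hginv]
      simpa using hx
    · intro x _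
      simp
    · intro x _
      simp
    · intro x _
      rfl
  -- means over cycles
  have hmean : ∀ x ∈ univ \ A, ((∑ y ∈ cyc g x, φ y) / ((cyc g x).card : ℝ)) ^ 2 ≤
      (1 - w) ^ 2 * ((∑ y ∈ cyc g x, f y ^ 2) / ((cyc g x).card : ℝ)) := by
    intro x hx
    have hself : x ∈ cyc g x := (Pool.Agent.Q153.LC.mem_cyc g x x).2 (Perm.SameCycle.refl g x)
    have hpos : (0 : ℝ) < ((cyc g x).card : ℝ) := by
      have : 0 < (cyc g x).card := Finset.card_pos.2 ⟨x, hself⟩
      exact_mod_cast this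
    have hsubC : ∀ y ∈ cyc g x, y ∈ univ \ A := by
      intro y hy
      rw [Finset.mem_sdiff] at hx ⊢
      refine ⟨Finset.mem_univ _, fun hyA => hx.2 ?_⟩
      exact Pool.Agent.Q153.LC.inv_same g A hA y x hyA
        ((Pool.Agent.Q153.LC.mem_cyc g x y).1 hy).symm
    have hs : ∑ y ∈ cyc g x, φ y = (1 - w) * ∑ y ∈ cyc g x, f y := by
      rw [Finset.sum_congr rfl (fun y hy => hin y (hsubC y hy)), Finset.sum_sub_distrib,
        ← Finset.mul_sum]
      have : ∑ y ∈ cyc g x, f (g y) = ∑ y ∈ cyc g x, f y := by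
        refine Finset.sum_nbij' (fun x => g x) (fun x => g.symm x) ?_ ?_ ?_ ?_ ?_
        · intro y hy
          rw [Pool.Agent.Q153.LC.mem_cyc] at hy ⊢
          exact Perm.sameCycle_apply_right.mpr hy
        · intro y hy
          rw [Pool.Agent.Q153.LC.mem_cyc] at hy ⊢
          exact Perm.sameCycle_symm_apply_right.mpr hy
        · intro y _
          simp
        · intro y _
          simp
        · intro y _
          rfl
      rw [this]
      ring
    have hcs : (∑ y ∈ cyc g x, f y) ^ 2 ≤ ((cyc g x).card : ℝ) * ∑ y ∈ cyc g x, f y ^ 2 :=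
      sq_sum_le_card_mul_sum_sq
    rw [hs, div_pow, mul_pow, mul_div_assoc]
    refine mul_le_mul_of_nonneg_left ?_ (sq_nonneg _)
    rw [div_le_div_iff₀ (by positivity) hpos]
    nlinarith
  have hsum : ∑ x ∈ univ \ A, ((∑ y ∈ cyc g x, φ y) / ((cyc g x).card : ℝ)) ^ 2 ≤
      (1 - w) ^ 2 * ∑ x ∈ univ \ A, f x ^ 2 := by
    refine le_trans (Finset.sum_le_sum hmean) ?_
    rw [← Finset.mul_sum, sum_cyc_mean g A hA (fun y => f y ^ 2)]
  have hdot : (1 - w) * ∑ x ∈ univ \ A, f x ^ 2 ≤ φ ⬝ᵥ f := by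
    have e1 : φ ⬝ᵥ f = ∑ x ∈ univ \ A, (f x - w * f (g x)) * f x := by
      unfold dotProduct
      rw [← Finset.sum_sdiff (Finset.subset_univ A)]
      rw [Finset.sum_congr rfl (fun x hx => by rw [hin x hx] :
        ∀ x ∈ univ \ A, φ x * f x = (f x - w * f (g x)) * f x)]
      have : ∑ x ∈ A, φ x * f x = 0 := Finset.sum_eq_zero fun x hx => by rw [hφ x hx, zero_mul]
      rw [this, add_zero]
    rw [e1]
    have e2 : ∑ x ∈ univ \ A, (f x ^ 2 - w * ((f (g x) ^ 2 + f x ^ 2) / 2)) ≤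
        ∑ x ∈ univ \ A, (f x - w * f (g x)) * f x := by
      refine Finset.sum_le_sum fun x _ => ?_
      nlinarith [mul_nonneg h0 (sq_nonneg (f (g x) - f x))]
    refine le_trans (le_of_eq ?_) e2
    rw [Finset.sum_sub_distrib, ← Finset.mul_sum, ← Finset.sum_div, Finset.sum_add_distrib,
      hshift (fun y => f y ^ 2)]
    ring
  calc ∑ x ∈ univ \ A, ((∑ y ∈ cyc g x, φ y) / ((cyc g x).card : ℝ)) ^ 2
      ≤ (1 - w) ^ 2 * ∑ x ∈ univ \ A, f x ^ 2 := hsum
    _ = (1 - w) * ((1 - w) * ∑ x ∈ univ \ A, f x ^ 2) := by ring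
    _ ≤ (1 - w) * (φ ⬝ᵥ f) := mul_le_mul_of_nonneg_left hdot (by linarith)

open Classical in
theorem res : Q292.LC.S_RES := by
  intro V _ _ e n δ w Λ B φ hδ0 hδ1 hw0 hw1 hΛ hB hφm hφ0 hyp
  -- one fixed set
  have key : ∀ A : Finset V,
      EE n δ (fun ω => (if Inv (gp e ω n) A ∧ B ω A then w ^ A.card else 0) *
        (dS w (univ \ A) (pm (gp e ω n)) *
          (φ ω A ⬝ᵥ ((1 - w • (dg (univ \ A) * pm (gp e ω n)))⁻¹ *ᵥ φ ω A)))) ≤
      Λ * EE n δ (fun ω => (if Inv (gp e ω n) A ∧ B ω A then w ^ A.card else 0) *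
        dS w (univ \ A) (pm (gp e ω n))) := by
    intro A
    have hΘ : Rmeas e n A (fun ω => if Inv (gp e ω n) A ∧ B ω A then w ^ A.card else (0 : ℝ)) := by
      intro ω ω' h
      obtain ⟨a1, -⟩ := Pool.Agent.Q68.LC.agree h
      have e1 : Inv (gp e ω n) A ↔ Inv (gp e ω' n) A := by
        unfold Q292.LC.Inv
        refine forall₂_congr fun a ha => ?_
        rw [a1 n le_rfl a ha]
      have e2 : B ω A ↔ B ω' A := by
        have := hB A ω ω' h
        simp only [eq_iff_iff] at this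
        exact this
      simp only [e1, e2]
    have hX : Rmeas e n A (fun ω => (1 : Matrix V V ℝ) + Matrix.of fun a b => φ ω A a * φ ω A b) := by
      intro ω ω' h
      have := hφm A ω ω' h
      simp only at this
      simp only [this]
    have hX0 : Rmeas e n A (fun _ => (1 : Matrix V V ℝ)) := fun _ _ _ => rfl
    have hY : Rmeas e n A (fun _ => -(w • dg (univ \ A))) := fun _ _ _ => rfl
    have l1 := Pool.Agent.Q257.LC.l1 V e n δ A _ _ _ hδ0 hδ1 hΘ hX hY
    have l0 := Pool.Agent.Q257.LC.l1 V e n δ A _ _ _ hδ0 hδ1 hΘ hX0 hY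
    -- determinants
    have d0 : ∀ P : Matrix V V ℝ, (1 + -(w • dg (univ \ A)) * P).det = dS w (univ \ A) P := by
      intro P
      unfold dS
      congr 1
      rw [Matrix.neg_mul, Matrix.smul_mul, sub_eq_add_neg]
    have hTpos : ∀ ω, 0 < (1 - w • (dg (univ \ A) * TT e ω A δ n)).det := by
      intro ω
      obtain ⟨b1, b2, -⟩ := Pool.Agent.Q68.LC.bas2 V e ω A δ hδ0 hδ1
      exact Pool.Agent.Q68.LC.det_pos (Pool.Agent.Q68.LC.SS_dg
        ⟨fun x y => b1 n x y, fun x => (b2 n x).le⟩ (univ \ A)) hw0 hw1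
    have hPpos : ∀ ω, 0 < (1 - w • (dg (univ \ A) * pm (gp e ω n))).det := fun ω =>
      (Pool.Agent.Q153.LC.p4 V (gp e ω n) 1 w (univ \ A) hw0 hw1).1.1
    have d1 : ∀ (P : Matrix V V ℝ) (ω : ℕ → Bool), 0 < (1 - w • (dg (univ \ A) * P)).det →
        ((1 : Matrix V V ℝ) + (Matrix.of fun a b => φ ω A a * φ ω A b) +
          -(w • dg (univ \ A)) * P).det =
        dS w (univ \ A) P * (1 + φ ω A ⬝ᵥ ((1 - w • (dg (univ \ A) * P))⁻¹ *ᵥ φ ω A)) := by
      intro P ω hP
      have := det_rank_one (1 - w • (dg (univ \ A) * P)) hP.ne' (φ ω A)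
      unfold dS
      rw [← this]
      congr 1
      rw [Matrix.neg_mul, Matrix.smul_mul, sub_eq_add_neg]
      abel
    obtain ⟨Θ, hΘd⟩ : ∃ Θ : (ℕ → Bool) → ℝ, Θ = fun ω =>
      if Inv (gp e ω n) A ∧ B ω A then w ^ A.card else (0 : ℝ) := ⟨_, rfl⟩
    obtain ⟨QP, hQP⟩ : ∃ QP : (ℕ → Bool) → ℝ, QP = fun ω =>
      φ ω A ⬝ᵥ ((1 - w • (dg (univ \ A) * pm (gp e ω n)))⁻¹ *ᵥ φ ω A) := ⟨_, rfl⟩
    obtain ⟨QT, hQT⟩ : ∃ QT : (ℕ → Bool) → ℝ, QT = fun ω =>
      φ ω A ⬝ᵥ ((1 - w • (dg (univ \ A) * TT e ω A δ n))⁻¹ *ᵥ φ ω A) := ⟨_, rfl⟩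
    have L1 : EE n δ (fun ω => Θ ω * (dS w (univ \ A) (pm (gp e ω n)) * (1 + QP ω))) =
        EE n δ (fun ω => Θ ω * (dS w (univ \ A) (TT e ω A δ n) * (1 + QT ω))) := by
      have t1 : (fun ω => Θ ω * (dS w (univ \ A) (pm (gp e ω n)) * (1 + QP ω))) =
          (fun ω => (if Inv (gp e ω n) A ∧ B ω A then w ^ A.card else (0 : ℝ)) *
            ((1 : Matrix V V ℝ) + (Matrix.of fun a b => φ ω A a * φ ω A b) +
              -(w • dg (univ \ A)) * pm (gp e ω n)).det) := by
        funext ω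
        rw [d1 _ ω (hPpos ω), hΘd, hQP]
      have t2 : (fun ω => Θ ω * (dS w (univ \ A) (TT e ω A δ n) * (1 + QT ω))) =
          (fun ω => (if Inv (gp e ω n) A ∧ B ω A then w ^ A.card else (0 : ℝ)) *
            ((1 : Matrix V V ℝ) + (Matrix.of fun a b => φ ω A a * φ ω A b) +
              -(w • dg (univ \ A)) * TT e ω A δ n).det) := by
        funext ω
        rw [d1 _ ω (hTpos ω), hΘd, hQT]
      rw [t1, t2]
      exact l1
    have L0 : EE n δ (fun ω => Θ ω * dS w (univ \ A) (pm (gp e ω n))) =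
        EE n δ (fun ω => Θ ω * dS w (univ \ A) (TT e ω A δ n)) := by
      have t1 : (fun ω => Θ ω * dS w (univ \ A) (pm (gp e ω n))) =
          (fun ω => (if Inv (gp e ω n) A ∧ B ω A then w ^ A.card else (0 : ℝ)) *
            ((1 : Matrix V V ℝ) + -(w • dg (univ \ A)) * pm (gp e ω n)).det) := by
        funext ω
        rw [d0, hΘd]
      have t2 : (fun ω => Θ ω * dS w (univ \ A) (TT e ω A δ n)) =
          (fun ω => (if Inv (gp e ω n) A ∧ B ω A then w ^ A.card else (0 : ℝ)) *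
            ((1 : Matrix V V ℝ) + -(w • dg (univ \ A)) * TT e ω A δ n).det) := by
        funext ω
        rw [d0, hΘd]
      rw [t1, t2]
      exact l0
    have hΘ0 : ∀ ω, 0 ≤ Θ ω := by
      intro ω
      rw [hΘd]
      simp only
      split_ifs
      · positivity
      · exact le_rfl
    have hexp : ∀ (D Q : (ℕ → Bool) → ℝ), EE n δ (fun ω => Θ ω * (D ω * (1 + Q ω))) =
        EE n δ (fun ω => Θ ω * D ω) + EE n δ (fun ω => Θ ω * (D ω * Q ω)) := by
      intro D Q
      rw [← EE_add]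
      congr 1
      funext ω
      ring
    rw [hexp, hexp, L0] at L1
    have L2 := add_left_cancel L1
    have L3 : EE n δ (fun ω => Θ ω * (dS w (univ \ A) (pm (gp e ω n)) * QP ω)) ≤
        Λ * EE n δ (fun ω => Θ ω * dS w (univ \ A) (pm (gp e ω n))) := by
      rw [L2, L0, ← EE_smul]
      refine EE_mono hδ0 hδ1 fun ω => ?_
      by_cases hc : Inv (gp e ω n) A ∧ B ω A
      · have h1 : QT ω ≤ Λ := by
          rw [hQT]
          exact hyp ω A hc.1 hc.2
        have h2 : 0 ≤ dS w (univ \ A) (TT e ω A δ n) := (hTpos ω).le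
        have h3 := mul_le_mul_of_nonneg_left h1 (mul_nonneg (hΘ0 ω) h2)
        linarith
      · have h1 : Θ ω = 0 := by rw [hΘd]; simp only [hc, if_false]
        rw [h1]
        simp
    rw [hΘd, hQP] at L3
    exact L3
  -- the sum over all sets
  have hstep : PE e n δ w (fun ω A => if B ω A then ∑ x ∈ univ \ A,
      ((∑ y ∈ cyc (gp e ω n) x, φ ω A y) / ((cyc (gp e ω n) x).card : ℝ)) ^ 2 else 0) ≤
      EE n δ (fun ω => ∑ A : Finset V, (1 - w) *
        ((if Inv (gp e ω n) A ∧ B ω A then w ^ A.card else 0) *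
        (dS w (univ \ A) (pm (gp e ω n)) *
          (φ ω A ⬝ᵥ ((1 - w • (dg (univ \ A) * pm (gp e ω n)))⁻¹ *ᵥ φ ω A))))) := by
    unfold PE
    refine EE_mono hδ0 hδ1 fun ω => Finset.sum_le_sum fun A _ => ?_
    by_cases h1 : Inv (gp e ω n) A
    · by_cases h2 : B ω A
      · rw [if_pos h1]
        show w ^ A.card * dS w (univ \ A) (pm (gp e ω n)) * (if B ω A then ∑ x ∈ univ \ A,
          ((∑ y ∈ cyc (gp e ω n) x, φ ω A y) / ((cyc (gp e ω n) x).card : ℝ)) ^ 2 else 0) ≤ _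
        rw [if_pos h2, if_pos ⟨h1, h2⟩]
        have h3 := res_low (gp e ω n) w hw0 hw1 A h1 (φ ω A) (hφ0 ω A)
        have h4 := mul_le_mul_of_nonneg_left h3 (wt_nonneg (gp e ω n) w hw0 hw1 A)
        linarith
      · rw [if_pos h1]
        show w ^ A.card * dS w (univ \ A) (pm (gp e ω n)) * (if B ω A then ∑ x ∈ univ \ A,
          ((∑ y ∈ cyc (gp e ω n) x, φ ω A y) / ((cyc (gp e ω n) x).card : ℝ)) ^ 2 else 0) ≤ _
        rw [if_neg h2, if_neg (fun h => h2 h.2)]
        simp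
    · rw [if_neg h1, if_neg (fun h => h1 h.1)]
      simp
  refine le_trans hstep ?_
  rw [EE_sum]
  have h5 : ∀ A ∈ (Finset.univ : Finset (Finset V)), EE n δ (fun ω => (1 - w) *
        ((if Inv (gp e ω n) A ∧ B ω A then w ^ A.card else 0) *
        (dS w (univ \ A) (pm (gp e ω n)) *
          (φ ω A ⬝ᵥ ((1 - w • (dg (univ \ A) * pm (gp e ω n)))⁻¹ *ᵥ φ ω A))))) ≤
      (1 - w) * Λ * EE n δ (fun ω => (if Inv (gp e ω n) A ∧ B ω A then w ^ A.card else 0) *
        dS w (univ \ A) (pm (gp e ω n))) := by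
    intro A _
    rw [EE_smul, mul_assoc]
    exact mul_le_mul_of_nonneg_left (key A) (by linarith)
  refine le_trans (Finset.sum_le_sum h5) ?_
  rw [← Finset.mul_sum, ← EE_sum]
  have h6 : EE n δ (fun ω => ∑ A : Finset V,
      (if Inv (gp e ω n) A ∧ B ω A then w ^ A.card else 0) *
        dS w (univ \ A) (pm (gp e ω n))) ≤ 1 := by
    rw [← EE_const n δ 1]
    refine EE_mono hδ0 hδ1 fun ω => ?_
    rw [← wt_sum (gp e ω n) w hw0 hw1]
    refine Finset.sum_le_sum fun A _ => ?_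
    have := wt_nonneg (gp e ω n) w hw0 hw1 A
    by_cases h1 : Inv (gp e ω n) A
    · by_cases h2 : B ω A
      · simp only [h1, h2, and_self, if_true]
        exact le_rfl
      · simp only [h1, h2, and_false, if_true, if_false, zero_mul]
        exact this
    · simp only [h1, false_and, if_false, zero_mul]
      exact le_rfl
  have h7 : 0 ≤ (1 - w) * Λ := mul_nonneg (by linarith) hΛ
  calc (1 - w) * Λ * _ ≤ (1 - w) * Λ * 1 := mul_le_mul_of_nonneg_left h6 h7
    _ = (1 - w) * Λ := mul_one _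

end gen

end Pool.Agent.Q277.LC
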