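import Pool.Agent.Q277.LC.Ex
import Pool.Agent.Q277.LC.Sub

/-!
# Project LC: exponential tail of the closeness and union bound
(jobs LC-KHA, LC-OMP of helper292)
-/

set_option autoImplicit false
set_option linter.unusedSectionVars false
set_option linter.unusedVariables false

namespace Pool.Agent.Q277.LC

open Finset Equiv Matrix Q292.LC
open Pool.Agent.Q151.LC (jumps_shift sh_per td_jumps td_tri td_comm td_self mem_bal sig_per)
open Pool.Agent.Q68.LC (EE_congr EE_const EE_add EE_smul EE_mono EE_succ)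

theorem cnt_succ (c : ℕ → Prop) [DecidablePred c] (S : ℕ) :
    ((Finset.range (S + 1)).filter c).card =
      (if c 0 then 1 else 0) + ((Finset.range S).filter fun t => c (t + 1)).card := by
  rw [Finset.card_filter, Finset.card_filter, Finset.sum_range_succ', add_comm]

/-- choose the first of `m + 1` elements -/
theorem choose_first (m : ℕ) : ∀ (S : ℕ) (c : ℕ → Prop) [DecidablePred c],
    (((Finset.range S).filter c).card).choose (m + 1) ≤
      ∑ s ∈ Finset.range S, if c s then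
        (((Finset.range (S - s)).filter fun t => c (s + t)).card).choose m else 0 := by
  intro S
  induction S with
  | zero => intro c _; simp
  | succ S ih =>
    intro c _
    rw [cnt_succ, Finset.sum_range_succ']
    have h1 := ih (fun t => c (t + 1))
    have h2 : ∑ s ∈ Finset.range S, (if c (s + 1) then
        (((Finset.range (S - s)).filter fun t => c (s + t + 1)).card).choose m else 0) ≤
        ∑ s ∈ Finset.range S, (if c (s + 1) then
        (((Finset.range (S + 1 - (s + 1))).filter fun t => c (s + 1 + t)).card).choose m else 0) := by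
      refine Finset.sum_le_sum fun s _ => ?_
      have e1 : S + 1 - (s + 1) = S - s := by omega
      rw [e1]
      have e2 : (fun t => c (s + t + 1)) = (fun t => c (s + 1 + t)) := by
        funext t
        have : s + t + 1 = s + 1 + t := by omega
        rw [this]
      simp only [e2]
      exact le_rfl
    by_cases h0 : c 0
    · rw [if_pos h0, if_pos h0, Nat.add_comm 1, Nat.choose_succ_succ, Nat.succ_eq_add_one]
      have h3 : (((Finset.range S).filter fun t => c (t + 1)).card).choose m ≤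
          (((Finset.range (S + 1 - 0)).filter fun t => c (0 + t)).card).choose m := by
        refine Nat.choose_le_choose _ ?_
        have e3 : (fun t => c (0 + t)) = c := by funext t; rw [zero_add]
        simp only [e3, Nat.sub_zero]
        rw [cnt_succ]
        omega
      have h4 := le_trans h1 h2
      omega
    · rw [if_neg h0, if_neg h0, zero_add, add_zero]
      exact le_trans h1 h2

section torus

variable {d L : ℕ} [NeZero L]

/-- shift of the closeness -/
theorem clo_shift {σ : ℕ → (Fin d → ZMod L) × Fin d} (hσ : Per σ) (s S : ℕ) (ω : ℕ → Bool)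
    (x y : Fin d → ZMod L) :
    ((Finset.range S).filter fun t => td (gp (ed ∘ σ) ω ((s + t) * ms d L) x)
      (gp (ed ∘ σ) ω ((s + t) * ms d L) y) ≤ 3).card =
    clo σ S (sh (s * ms d L) ω) (gp (ed ∘ σ) ω (s * ms d L) x) (gp (ed ∘ σ) ω (s * ms d L) y) := by
  unfold clo
  congr 1
  refine Finset.filter_congr fun t _ => ?_
  rw [gp_window hσ, gp_window hσ, ← Nat.add_mul]

theorem clo_local (σ : ℕ → (Fin d → ZMod L) × Fin d) {ω ω₂ : ℕ → Bool} {S m : ℕ}
    (hS : S * ms d L ≤ m) (h : ∀ k < m, ω k = ω₂ k) (x y : Fin d → ZMod L) :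
    clo σ S ω x y = clo σ S ω₂ x y := by
  unfold clo
  congr 1
  refine Finset.filter_congr fun t ht => ?_
  rw [Finset.mem_range] at ht
  rw [gp_local σ h (le_trans (Nat.mul_le_mul_right _ ht.le) hS)]

theorem clo_mono (σ : ℕ → (Fin d → ZMod L) × Fin d) (ω : ℕ → Bool) {S S' : ℕ}
    (hS : S ≤ S') (x y : Fin d → ZMod L) : clo σ S ω x y ≤ clo σ S' ω x y := by
  unfold clo
  exact Finset.card_le_card (Finset.filter_subset_filter _ (Finset.range_mono hS))

/-- Khasminskii's lemma in terms of binomial moments -/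
theorem kha_mom {σ : ℕ → (Fin d → ZMod L) × Fin d} (hσ : Per σ) (N : ℕ) (δ B : ℝ)
    (hδ0 : 0 ≤ δ) (hδ1 : δ ≤ 1) (hB : 0 ≤ B)
    (h : ∀ x y, x ≠ y → EE (N * ms d L) δ (fun ω => (clo σ N ω x y : ℝ)) ≤ B) (m : ℕ) :
    ∀ (S : ℕ), S ≤ N → ∀ n, S * ms d L ≤ n → ∀ x y, x ≠ y →
      EE n δ (fun ω => ((clo σ S ω x y).choose m : ℝ)) ≤ B ^ m := by
  induction m with
  | zero =>
    intro S hS n hn x y hxy
    simp only [Nat.choose_zero_right, Nat.cast_one, pow_zero]
    rw [EE_const]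
  | succ m ih =>
    intro S hS n hn x y hxy
    have h1 : ∀ ω, ((clo σ S ω x y).choose (m + 1) : ℝ) ≤ ∑ s ∈ Finset.range S,
        (if td (gp (ed ∘ σ) ω (s * ms d L) x) (gp (ed ∘ σ) ω (s * ms d L) y) ≤ 3 then (1 : ℝ)
          else 0) * ((clo σ (S - s) (sh (s * ms d L) ω) (gp (ed ∘ σ) ω (s * ms d L) x)
            (gp (ed ∘ σ) ω (s * ms d L) y)).choose m : ℝ) := by
      intro ω
      have h2 := choose_first m S (fun t => td (gp (ed ∘ σ) ω (t * ms d L) x)
        (gp (ed ∘ σ) ω (t * ms d L) y) ≤ 3)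
      have h3 : ((clo σ S ω x y).choose (m + 1) : ℝ) ≤ ((∑ s ∈ Finset.range S,
          if td (gp (ed ∘ σ) ω (s * ms d L) x) (gp (ed ∘ σ) ω (s * ms d L) y) ≤ 3 then
          (((Finset.range (S - s)).filter fun t => td (gp (ed ∘ σ) ω ((s + t) * ms d L) x)
      (gp (ed ∘ σ) ω ((s + t) * ms d L) y) ≤ 3).card).choose m else 0 : ℕ) : ℝ) := by
        exact_mod_cast h2
      refine le_trans h3 (le_of_eq ?_)
      push_cast
      refine Finset.sum_congr rfl fun s _ => ?_
      rw [clo_shift hσ]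
      split_ifs <;> simp
    refine le_trans (EE_mono hδ0 hδ1 h1) ?_
    rw [EE_sum]
    have h2 : ∀ s ∈ Finset.range S, EE n δ (fun ω =>
        (if td (gp (ed ∘ σ) ω (s * ms d L) x) (gp (ed ∘ σ) ω (s * ms d L) y) ≤ 3 then (1 : ℝ)
          else 0) * ((clo σ (S - s) (sh (s * ms d L) ω) (gp (ed ∘ σ) ω (s * ms d L) x)
            (gp (ed ∘ σ) ω (s * ms d L) y)).choose m : ℝ)) ≤
        B ^ m * EE (s * ms d L) δ (fun ω => if td (gp (ed ∘ σ) ω (s * ms d L) x)
          (gp (ed ∘ σ) ω (s * ms d L) y) ≤ 3 then (1 : ℝ) else 0) := by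
      intro s hs
      rw [Finset.mem_range] at hs
      have hsn : s * ms d L ≤ n := le_trans (Nat.mul_le_mul_right _ hs.le) hn
      obtain ⟨t, rfl⟩ : ∃ t, n = s * ms d L + t := ⟨n - s * ms d L, by omega⟩
      rw [EE_split (s * ms d L) t δ (fun ω η =>
        (if td (gp (ed ∘ σ) ω (s * ms d L) x) (gp (ed ∘ σ) ω (s * ms d L) y) ≤ 3 then (1 : ℝ)
          else 0) * ((clo σ (S - s) η (gp (ed ∘ σ) ω (s * ms d L) x)
            (gp (ed ∘ σ) ω (s * ms d L) y)).choose m : ℝ))
        (fun ω ω₂ η h4 => by rw [gp_local σ h4 le_rfl])]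
      rw [← EE_smul]
      refine EE_mono hδ0 hδ1 fun ω => ?_
      rw [EE_smul, mul_comm]
      refine mul_le_mul_of_nonneg_right ?_ (by split_ifs <;> norm_num)
      refine ih (S - s) (by omega) t ?_ _ _ (fun h0 => hxy ((gp (ed ∘ σ) ω (s * ms d L)).injective h0))
      have : (S - s) * ms d L + s * ms d L = S * ms d L := by
        rw [← Nat.add_mul]; congr 1; omega
      omega
    refine le_trans (Finset.sum_le_sum h2) ?_
    rw [← Finset.mul_sum, ← EE_clo σ S (N * ms d L) δ (Nat.mul_le_mul_right _ hS) x y, pow_succ]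
    refine mul_le_mul_of_nonneg_left ?_ (by positivity)
    refine le_trans (EE_mono hδ0 hδ1 fun ω => ?_) (h x y hxy)
    exact_mod_cast clo_mono σ ω hS x y

/-- lower bound for the binomial coefficient -/
theorem choose_lb (B m : ℕ) (hB : 1 ≤ B) (hm : 1 ≤ m) :
    ((2 * B : ℕ) : ℝ) ^ m ≤ ((4 * B * m).choose m : ℝ) := by
  have h1 : ((4 * B * m + 1 - m : ℕ) : ℝ) ^ m / (m.factorial : ℝ) ≤ ((4 * B * m).choose m : ℝ) :=
    Nat.pow_le_choose m (4 * B * m)
  refine le_trans ?_ h1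
  have hfac : (0 : ℝ) < (m.factorial : ℝ) := by exact_mod_cast Nat.factorial_pos m
  rw [le_div_iff₀ hfac]
  have h2 : (m.factorial : ℝ) ≤ (m : ℝ) ^ m := by exact_mod_cast Nat.factorial_le_pow m
  calc ((2 * B : ℕ) : ℝ) ^ m * (m.factorial : ℝ) ≤ ((2 * B : ℕ) : ℝ) ^ m * (m : ℝ) ^ m :=
        mul_le_mul_of_nonneg_left h2 (by positivity)
    _ = ((2 * B * m : ℕ) : ℝ) ^ m := by rw [← mul_pow]; push_cast; ring
    _ ≤ ((4 * B * m + 1 - m : ℕ) : ℝ) ^ m := by
        refine pow_le_pow_left₀ (by positivity) ?_ _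
        have : 2 * B * m ≤ 4 * B * m + 1 - m := by
          have h3 : m ≤ B * m := Nat.le_mul_of_pos_left m hB
          have h4 : 4 * B * m = 4 * (B * m) := by ring
          have h5 : 2 * B * m = 2 * (B * m) := by ring
          rw [h4, h5]
          omega
        exact_mod_cast this

theorem kha (hC : Q292.LC.S_CLO) : Q292.LC.S_KHA := by
  classical
  intro d hd
  obtain ⟨C, hC1, hC2⟩ := hC d hd
  refine ⟨4 * C, by omega, ?_⟩
  intro L _ hL K hKL
  obtain ⟨q₀, hq₀⟩ := hC2 L hL K hKL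
  refine ⟨max q₀ 2, ?_⟩
  intro q hq σ hσ δ hδ1 hδ2 x y hxy m
  have hqq : q₀ ≤ q := le_trans (le_max_left _ _) hq
  have hq2 : 2 ≤ q := le_trans (le_max_right _ _) hq
  have hqR : (2 : ℝ) ≤ q := by exact_mod_cast hq2
  have hδ0 : 0 < δ := by
    by_contra h
    push Not at h
    have : δ * q ≤ 0 := mul_nonpos_of_nonpos_of_nonneg h (by linarith)
    linarith
  have hδle : δ ≤ 1 := by nlinarith
  have hn : K * q * ms d L = K * (q * ms d L) := by rw [mul_assoc]
  have hmain := fun x y hxy => hq₀ q hqq σ hσ δ hδ1 hδ2 x y hxy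
  rcases Nat.eq_zero_or_pos m with h0 | h0
  · subst h0
    rw [pow_zero]
    have h1 : EE (K * (q * ms d L)) δ (fun ω => if 4 * C * 0 * q < clo σ (K * q) ω x y then
        (1 : ℝ) else 0) ≤ EE (K * (q * ms d L)) δ (fun _ => 1) := by
      refine EE_mono hδ0.le hδle fun ω => ?_
      split_ifs <;> norm_num
    rw [EE_const] at h1
    convert h1
  obtain ⟨B, hB⟩ : ∃ B : ℕ, B = C * q := ⟨_, rfl⟩
  have hB1 : 1 ≤ B := by
    rw [hB]
    exact Nat.mul_pos hC1 (by omega)
  have hBR : (B : ℝ) = C * q := by rw [hB]; push_cast; ring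
  have hmom := kha_mom hσ (K * q) δ B hδ0.le hδle (by positivity) (by
    intro x y hxy
    rw [hn, hBR]
    exact hmain x y hxy) m (K * q) le_rfl (K * (q * ms d L)) hn.le x y hxy
  have hch := choose_lb B m hB1 h0
  have hchp : (0 : ℝ) < ((4 * B * m).choose m : ℝ) := lt_of_lt_of_le (by
    have : (0 : ℝ) < ((2 * B : ℕ) : ℝ) := by exact_mod_cast (by omega : 0 < 2 * B)
    positivity) hch
  have h1 : EE (K * (q * ms d L)) δ (fun ω => if 4 * C * m * q < clo σ (K * q) ω x y then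
      (1 : ℝ) else 0) ≤ EE (K * (q * ms d L)) δ (fun ω =>
        1 / ((4 * B * m).choose m : ℝ) * ((clo σ (K * q) ω x y).choose m : ℝ)) := by
    refine EE_mono hδ0.le hδle fun ω => ?_
    split_ifs with hc
    · rw [one_div_mul_eq_div, one_le_div hchp]
      have h3 : 4 * B * m ≤ clo σ (K * q) ω x y := by
        have : 4 * B * m = 4 * C * m * q := by rw [hB]; ring
        omega
      exact_mod_cast Nat.choose_le_choose m h3
    · positivity
  have h2 : EE (K * (q * ms d L)) δ (fun ω => if 4 * C * m * q < clo σ (K * q) ω x y then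
      (1 : ℝ) else 0) ≤ (1 / 2) ^ m := by
    refine le_trans h1 ?_
    rw [EE_smul]
    calc 1 / ((4 * B * m).choose m : ℝ) * EE (K * (q * ms d L)) δ
          (fun ω => ((clo σ (K * q) ω x y).choose m : ℝ))
        ≤ 1 / ((4 * B * m).choose m : ℝ) * (B : ℝ) ^ m :=
          mul_le_mul_of_nonneg_left hmom (by positivity)
      _ ≤ 1 / ((2 * B : ℕ) : ℝ) ^ m * (B : ℝ) ^ m := by
          refine mul_le_mul_of_nonneg_right ?_ (by positivity)
          refine one_div_le_one_div_of_le ?_ hch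
          have : (0 : ℝ) < ((2 * B : ℕ) : ℝ) := by exact_mod_cast (by omega : 0 < 2 * B)
          positivity
      _ = (1 / 2) ^ m := by
          have hBp : (B : ℝ) ≠ 0 := by
            have : (0 : ℝ) < B := by exact_mod_cast hB1
            exact this.ne'
          rw [one_div_mul_eq_div, ← div_pow]
          congr 1
          push_cast
          field_simp
  convert h2

theorem omp (hJ : Q292.LC.S_JMP) (hK : Q292.LC.S_KHA) : Q292.LC.S_OMP := by
  classical
  intro d hd
  obtain ⟨CJ, hJ1, hJ2⟩ := hJ d (by omega)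
  obtain ⟨CK, hK1, hK2⟩ := hK d hd
  refine ⟨max ⌈CJ⌉₊ CK, le_trans hK1 (le_max_right _ _), ?_⟩
  intro L _ hL K hKL ρ κ₀
  obtain ⟨q₀, hq₀⟩ := hK2 L hL K hKL
  refine ⟨max (max q₀ 2) ⌈2 * CJ⌉₊, ?_⟩
  intro q hq σ hσ δ hδ1 hδ2
  have hqq : q₀ ≤ q := le_trans (le_trans (le_max_left _ _) (le_max_left _ _)) hq
  have hq2 : 2 ≤ q := le_trans (le_trans (le_max_right _ _) (le_max_left _ _)) hq
  have hqJ : 2 * CJ ≤ q := le_trans (Nat.le_ceil _)
    (by exact_mod_cast le_trans (le_max_right _ _) hq)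
  have hqR : (2 : ℝ) ≤ q := by exact_mod_cast hq2
  have hδ0 : 0 < δ := by
    by_contra h
    push Not at h
    have : δ * q ≤ 0 := mul_nonpos_of_nonpos_of_nonneg h (by linarith)
    linarith
  have hδle : δ ≤ 1 := by nlinarith
  have hCδ : CJ * δ ≤ 1 := by nlinarith
  have hLR : (1 : ℝ) ≤ L := by exact_mod_cast (by omega : 1 ≤ L)
  have hcard : (Fintype.card (Fin d → ZMod L) : ℝ) = (L : ℝ) ^ d := by
    rw [Fintype.card_fun, Fintype.card_fin, ZMod.card]
    push_cast
    rfl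
  have hkd : ∀ ω : ℕ → Bool, (if Om σ q K ρ κ₀ ω then (0 : ℝ) else 1) ≤
      (∑ j ∈ Finset.range K, ∑ x : Fin d → ZMod L,
        if ρ < jumps (ed ∘ σ) ω (j * (q * ms d L)) ((j + 1) * (q * ms d L)) x then (1 : ℝ) else 0) +
      ∑ p : (Fin d → ZMod L) × (Fin d → ZMod L), if p.1 ≠ p.2 then
        (if CK * (κ₀ / CK) * q < clo σ (K * q) ω p.1 p.2 then (1 : ℝ) else 0) else 0 := by
    intro ω
    have hn1 : 0 ≤ ∑ j ∈ Finset.range K, ∑ x : Fin d → ZMod L,
        (if ρ < jumps (ed ∘ σ) ω (j * (q * ms d L)) ((j + 1) * (q * ms d L)) x then (1 : ℝ)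
          else 0) := by
      refine Finset.sum_nonneg fun j _ => Finset.sum_nonneg fun x _ => ?_
      split_ifs <;> norm_num
    have hn2 : 0 ≤ ∑ p : (Fin d → ZMod L) × (Fin d → ZMod L), (if p.1 ≠ p.2 then
        (if CK * (κ₀ / CK) * q < clo σ (K * q) ω p.1 p.2 then (1 : ℝ) else 0) else 0) := by
      refine Finset.sum_nonneg fun p _ => ?_
      split_ifs <;> norm_num
    split_ifs with hOm
    · linarith
    unfold Om at hOm
    rw [not_and_or] at hOm
    rcases hOm with h | h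
    · push Not at h
      obtain ⟨j, hj, a, ha⟩ := h
      have h1 : (1 : ℝ) ≤ ∑ j ∈ Finset.range K, ∑ x : Fin d → ZMod L,
          (if ρ < jumps (ed ∘ σ) ω (j * (q * ms d L)) ((j + 1) * (q * ms d L)) x then (1 : ℝ)
            else 0) := by
        have h2 : ∑ x : Fin d → ZMod L,
          (if ρ < jumps (ed ∘ σ) ω (j * (q * ms d L)) ((j + 1) * (q * ms d L)) x then (1 : ℝ)
            else 0) ≤ ∑ j ∈ Finset.range K, ∑ x : Fin d → ZMod L,
          (if ρ < jumps (ed ∘ σ) ω (j * (q * ms d L)) ((j + 1) * (q * ms d L)) x then (1 : ℝ)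
            else 0) := by
          refine Finset.single_le_sum (f := fun j => ∑ x : Fin d → ZMod L,
            (if ρ < jumps (ed ∘ σ) ω (j * (q * ms d L)) ((j + 1) * (q * ms d L)) x then (1 : ℝ)
            else 0)) (fun j _ => Finset.sum_nonneg fun x _ => by split_ifs <;> norm_num)
            (Finset.mem_range.2 hj)
        refine le_trans ?_ h2
        have h3 : (if ρ < jumps (ed ∘ σ) ω (j * (q * ms d L)) ((j + 1) * (q * ms d L)) a then
          (1 : ℝ) else 0) ≤ ∑ x : Fin d → ZMod L,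
          (if ρ < jumps (ed ∘ σ) ω (j * (q * ms d L)) ((j + 1) * (q * ms d L)) x then (1 : ℝ)
            else 0) := by
          refine Finset.single_le_sum (f := fun x =>
            (if ρ < jumps (ed ∘ σ) ω (j * (q * ms d L)) ((j + 1) * (q * ms d L)) x then (1 : ℝ)
            else 0)) (fun x _ => by split_ifs <;> norm_num) (Finset.mem_univ a)
        rw [if_pos ha] at h3
        exact h3
      linarith
    · push Not at h
      obtain ⟨a, b, hab, hc⟩ := h
      have h3 : (if a ≠ b then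
        (if CK * (κ₀ / CK) * q < clo σ (K * q) ω a b then (1 : ℝ) else 0) else 0) ≤
          ∑ p : (Fin d → ZMod L) × (Fin d → ZMod L), (if p.1 ≠ p.2 then
        (if CK * (κ₀ / CK) * q < clo σ (K * q) ω p.1 p.2 then (1 : ℝ) else 0) else 0) := by
        refine Finset.single_le_sum (f := fun p : (Fin d → ZMod L) × (Fin d → ZMod L) =>
          (if p.1 ≠ p.2 then
        (if CK * (κ₀ / CK) * q < clo σ (K * q) ω p.1 p.2 then (1 : ℝ) else 0) else 0))
          (fun p _ => by split_ifs <;> norm_num) (Finset.mem_univ (a, b))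
      have h4 : CK * (κ₀ / CK) * q < clo σ (K * q) ω a b := by
        refine lt_of_le_of_lt ?_ hc
        exact Nat.mul_le_mul_right _ (Nat.mul_div_le _ _)
      rw [if_pos hab, if_pos h4] at h3
      linarith
  have hE : EE (K * (q * ms d L)) δ (fun ω => if Om σ q K ρ κ₀ ω then (0 : ℝ) else 1) ≤
      (∑ j ∈ Finset.range K, ∑ x : Fin d → ZMod L, CJ * Real.exp (-(ρ : ℝ))) +
      ∑ p : (Fin d → ZMod L) × (Fin d → ZMod L), (1 / 2 : ℝ) ^ (κ₀ / CK) := by
    refine le_trans (EE_mono hδ0.le hδle hkd) ?_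
    rw [EE_add, EE_sum, EE_sum]
    refine add_le_add ?_ ?_
    · refine Finset.sum_le_sum fun j hj => ?_
      rw [EE_sum]
      refine Finset.sum_le_sum fun x _ => ?_
      have := hJ2 L hL σ hσ q K j ρ δ x hδ0 hCδ hδ2 (Finset.mem_range.1 hj)
      convert this
    · refine Finset.sum_le_sum fun p _ => ?_
      by_cases hp : p.1 ≠ p.2
      · have := hq₀ q hqq σ hσ δ hδ1 hδ2 p.1 p.2 hp (κ₀ / CK)
        simp only [if_pos hp]
        convert this
      · simp only [if_neg hp]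
        rw [EE_const]
        positivity
  have hgoal : EE (K * (q * ms d L)) δ (fun ω => if Om σ q K ρ κ₀ ω then (0 : ℝ) else 1) ≤
      (max ⌈CJ⌉₊ CK : ℕ) * ((L : ℝ) ^ (2 * d) * Real.exp (-(ρ : ℝ)) +
        (L : ℝ) ^ (2 * d) * (1 / 2) ^ (κ₀ / (max ⌈CJ⌉₊ CK))) := by
    refine le_trans hE ?_
    simp only [Finset.sum_const, Finset.card_univ, Finset.card_range, nsmul_eq_mul,
      Fintype.card_prod]
    push_cast
    rw [hcard]
    have hM1 : CJ ≤ (max (⌈CJ⌉₊ : ℝ) (CK : ℝ)) := le_trans (Nat.le_ceil _) (le_max_left _ _)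
    have hM2 : (1 : ℝ) ≤ (max (⌈CJ⌉₊ : ℝ) (CK : ℝ)) :=
      le_trans (by exact_mod_cast hK1) (le_max_right _ _)
    have hKR : (K : ℝ) ≤ (L : ℝ) ^ d := by exact_mod_cast hKL
    have h2d : (L : ℝ) ^ (2 * d) = (L : ℝ) ^ d * (L : ℝ) ^ d := by rw [two_mul, pow_add]
    have hLd : (0 : ℝ) ≤ (L : ℝ) ^ d := by positivity
    have t1 : (K : ℝ) * ((L : ℝ) ^ d * (CJ * Real.exp (-(ρ : ℝ)))) ≤
        max (⌈CJ⌉₊ : ℝ) (CK : ℝ) * ((L : ℝ) ^ (2 * d) * Real.exp (-(ρ : ℝ))) := by
      rw [h2d]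
      have he : 0 ≤ Real.exp (-(ρ : ℝ)) := (Real.exp_pos _).le
      calc (K : ℝ) * ((L : ℝ) ^ d * (CJ * Real.exp (-(ρ : ℝ))))
          ≤ (L : ℝ) ^ d * ((L : ℝ) ^ d * (CJ * Real.exp (-(ρ : ℝ)))) := by
            refine mul_le_mul_of_nonneg_right hKR (by positivity)
        _ = CJ * ((L : ℝ) ^ d * (L : ℝ) ^ d * Real.exp (-(ρ : ℝ))) := by ring
        _ ≤ _ := mul_le_mul_of_nonneg_right hM1 (by positivity)
    have t2 : (L : ℝ) ^ d * (L : ℝ) ^ d * (1 / 2) ^ (κ₀ / CK) ≤
        max (⌈CJ⌉₊ : ℝ) (CK : ℝ) * ((L : ℝ) ^ (2 * d) * (1 / 2) ^ (κ₀ / (max ⌈CJ⌉₊ CK))) := by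
      rw [h2d]
      have hp : (1 / 2 : ℝ) ^ (κ₀ / CK) ≤ (1 / 2) ^ (κ₀ / (max ⌈CJ⌉₊ CK)) := by
        refine pow_le_pow_of_le_one (by norm_num) (by norm_num) ?_
        exact Nat.div_le_div_left (le_max_right _ _) (by omega)
      calc (L : ℝ) ^ d * (L : ℝ) ^ d * (1 / 2) ^ (κ₀ / CK)
          ≤ (L : ℝ) ^ d * (L : ℝ) ^ d * (1 / 2) ^ (κ₀ / (max ⌈CJ⌉₊ CK)) :=
            mul_le_mul_of_nonneg_left hp (by positivity)
        _ ≤ _ := by
            refine le_mul_of_one_le_left (by positivity) hM2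
    rw [mul_add]
    have t3 : ((L : ℝ) ^ d) * ((L : ℝ) ^ d) * (1 / 2) ^ (κ₀ / CK) =
      ((L : ℝ) ^ d * (L : ℝ) ^ d) * (1 / 2) ^ (κ₀ / CK) := rfl
    linarith
  convert hgoal

end torus

end Pool.Agent.Q277.LC
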