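import Pool.Agent.Q292.LC.Stm5
import Pool.Agent.Q151.LC.Walk
import Pool.Agent.Q68.LC.Rot

/-!
# Project LC: rotation of the regular event (job LC-OMR of helper292)
-/

set_option autoImplicit false
set_option linter.unusedSectionVars false
set_option linter.unusedVariables false

namespace Pool.Agent.Q277.LC

open Finset Equiv Matrix Q292.LC
open Pool.Agent.Q151.LC (jumps_shift sh_per td_jumps td_tri td_comm mem_bal sig_per)

theorem jumps_congr {V : Type} [DecidableEq V] (e : ℕ → V × V) (ω ω' : ℕ → Bool) (a b m : ℕ)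
    (x y : V) (hω : ∀ k < m, ω' (a + k) = ω (b + k)) (he : ∀ k < m, e (a + k) = e (b + k))
    (hg : ∀ k < m, gp e ω' (a + k) y = gp e ω (b + k) x) :
    jumps e ω' a (a + m) y = jumps e ω b (b + m) x := by
  unfold jumps
  refine Finset.card_bij' (fun k _ => k - a + b) (fun k _ => k - b + a) ?_ ?_ ?_ ?_
  · intro k hk
    rw [Finset.mem_filter, Finset.mem_Ico] at hk ⊢
    obtain ⟨⟨h1, h2⟩, h3, h4⟩ := hk
    obtain ⟨t, rfl⟩ : ∃ t, k = a + t := ⟨k - a, by omega⟩
    have ht : t < m := by omega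
    have e1 : a + t - a + b = b + t := by omega
    rw [e1]
    refine ⟨⟨by omega, by omega⟩, by rw [← hω t ht]; exact h3, ?_⟩
    rw [Pool.Agent.Q151.LC.tch_single] at h4 ⊢
    rw [hg t ht, he t ht] at h4
    exact h4
  · intro k hk
    rw [Finset.mem_filter, Finset.mem_Ico] at hk ⊢
    obtain ⟨⟨h1, h2⟩, h3, h4⟩ := hk
    obtain ⟨t, rfl⟩ : ∃ t, k = b + t := ⟨k - b, by omega⟩
    have ht : t < m := by omega
    have e1 : b + t - b + a = a + t := by omega
    rw [e1]
    refine ⟨⟨by omega, by omega⟩, by rw [hω t ht]; exact h3, ?_⟩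
    rw [Pool.Agent.Q151.LC.tch_single] at h4 ⊢
    rw [hg t ht, he t ht]
    exact h4
  · intro k hk
    rw [Finset.mem_filter, Finset.mem_Ico] at hk
    omega
  · intro k hk
    rw [Finset.mem_filter, Finset.mem_Ico] at hk
    omega

theorem omr : Q292.LC.S_OMR := by
  intro d L _ hd hL σ hσ q K lam r ρ κ₀ j ω hq hj hOm R hv
  obtain ⟨o1, o2⟩ := hOm
  have hms : 0 < ms d L := by
    unfold ms
    have : 0 < L := Nat.pos_of_ne_zero (NeZero.ne L)
    positivity
  have hU : 0 < q * ms d L := Nat.mul_pos hq hms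
  have hper : ∀ k, (ed ∘ σ) (k + q * ms d L) = (ed ∘ σ) k := fun k => by
    simp only [Function.comp_apply]
    rw [sig_per hσ]
  obtain ⟨r1, r2, -⟩ := Pool.Agent.Q68.LC.t_rot (Fin d → ZMod L) (ed ∘ σ) (q * ms d L) K j hU
    hj.le hper ω
  obtain ⟨U, hUd⟩ : ∃ U, U = q * ms d L := ⟨_, rfl⟩
  have hperm : ∀ (N k : ℕ), (ed ∘ σ) (k + N * U) = (ed ∘ σ) k := fun N k => by
    rw [hUd]
    exact Pool.Agent.Q68.LC.per_mul hper N k
  rw [← hUd] at r1 r2 o1 hU ⊢
  obtain ⟨ω', hω'⟩ : ∃ ω', ω' = rot (K * U) (j * U) ω := ⟨_, rfl⟩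
  rw [← hω'] at r1 r2 ⊢
  have hjU : j * U ≤ K * U := Nat.mul_le_mul_right _ hj.le
  have hKU : (K - j) * U = K * U - j * U := Nat.sub_mul _ _ _
  have hw1 : ∀ k < K * U - j * U, ω' k = ω (j * U + k) := by
    intro k hk
    rw [hω']
    unfold rot
    rw [if_pos (by omega), Nat.mod_eq_of_lt (by omega), Nat.add_comm]
  have hw2 : ∀ k < j * U, ω' (K * U - j * U + k) = ω k := by
    intro k hk
    rw [hω']
    unfold rot
    rw [if_pos (by omega)]
    have : K * U - j * U + k + j * U = k + K * U := by omega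
    rw [this, Nat.add_mod_right, Nat.mod_eq_of_lt (by omega)]
  obtain ⟨h, hh⟩ : ∃ h, h = gp (ed ∘ σ) ω (j * U) := ⟨_, rfl⟩
  have hr1 : ∀ k ≤ K * U - j * U, ∀ a, gp (ed ∘ σ) ω' k a = gp (ed ∘ σ) ω (j * U + k) (h⁻¹ a) := by
    intro k hk a
    rw [← r1 k hk, ← hh, Perm.mul_apply, show h (h⁻¹ a) = a from by simp]
  have hr2 : ∀ k ≤ j * U, ∀ a, gp (ed ∘ σ) ω' (K * U - j * U + k) a =
      gp (ed ∘ σ) ω k (gp (ed ∘ σ) ω (K * U) (h⁻¹ a)) := by
    intro k hk a
    have := congrArg (fun g : Perm (Fin d → ZMod L) => g (h⁻¹ a)) (r2 k hk)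
    simp only [Perm.mul_apply] at this
    rw [← hh, show h (h⁻¹ a) = a from by simp] at this
    exact this
  refine ⟨?_, ?_, ?_⟩
  · rw [hω', hUd]
    exact hv
  · intro i hi a ha
    rw [← hUd]
    have ei : (i + 1) * U = i * U + U := by ring
    rw [ei]
    rcases Nat.lt_or_ge i (K - j) with h1 | h1
    · have h2 : (i + 1) * U ≤ (K - j) * U := Nat.mul_le_mul_right _ (by omega)
      have h3 := o1 (j + i) (by omega) (h⁻¹ a)
      have e1 : (j + i) * U = j * U + i * U := by ring
      have e2 : (j + i + 1) * U = j * U + i * U + U := by ring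
      rw [e1, e2] at h3
      rw [jumps_congr (ed ∘ σ) ω ω' (i * U) (j * U + i * U) U (h⁻¹ a) a]
      · exact h3
      · intro k hk
        rw [hw1 _ (by omega)]
        congr 1
        omega
      · intro k hk
        have := hperm j (i * U + k)
        rw [← this]
        congr 1
        omega
      · intro k hk
        rw [hr1 _ (by omega)]
        congr 2
        omega
    · obtain ⟨i', rfl⟩ : ∃ i', i = K - j + i' := ⟨i - (K - j), by omega⟩
      have hi' : i' + 1 ≤ j := by omega
      have h2 : (i' + 1) * U ≤ j * U := Nat.mul_le_mul_right _ hi'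
      have h3 := o1 i' (by omega) (gp (ed ∘ σ) ω (K * U) (h⁻¹ a))
      have e1 : (K - j + i') * U = K * U - j * U + i' * U := by rw [Nat.add_mul, hKU]
      have e2 : (i' + 1) * U = i' * U + U := by ring
      rw [e2] at h3 h2
      rw [e1]
      rw [jumps_congr (ed ∘ σ) ω ω' (K * U - j * U + i' * U) (i' * U) U
        (gp (ed ∘ σ) ω (K * U) (h⁻¹ a)) a]
      · exact h3
      · intro k hk
        rw [← hw2 _ (by omega)]
        congr 1
        omega
      · intro k hk
        have := hperm (K - j) (i' * U + k)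
        rw [← this, hKU]
        congr 1
        omega
      · intro k hk
        rw [← hr2 _ (by omega)]
        congr 2
        omega
  · intro a ha b hb hab
    have hKj : K * q = (K - j) * q + j * q := by
      rw [← Nat.add_mul]; congr 1; omega
    rw [hKj, Finset.range_eq_Ico,
      ← Finset.Ico_union_Ico_eq_Ico (Nat.zero_le ((K - j) * q)) (Nat.le_add_right _ _),
      Finset.filter_union]
    refine le_trans (Finset.card_union_le _ _) ?_
    have hUq : ∀ N : ℕ, N * U = N * q * ms d L := fun N => by rw [hUd]; ring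
    have hsub : (K - j) * q * ms d L = K * U - j * U := by rw [← hKU, hUq]
    have hab1 : h⁻¹ a ≠ h⁻¹ b := fun h0 => hab (h⁻¹.injective h0)
    have hab2 : gp (ed ∘ σ) ω (K * U) (h⁻¹ a) ≠ gp (ed ∘ σ) ω (K * U) (h⁻¹ b) :=
      fun h0 => hab1 ((gp (ed ∘ σ) ω (K * U)).injective h0)
    have hA : ((Finset.Ico 0 ((K - j) * q)).filter fun s =>
        td (gp (ed ∘ σ) ω' (s * ms d L) a) (gp (ed ∘ σ) ω' (s * ms d L) b) ≤ 3).card ≤ κ₀ * q := by
      refine le_trans ?_ (o2 _ _ hab1)
      unfold clo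
      refine Finset.card_le_card_of_injOn (fun s => s + j * q) ?_
        (fun x _ y _ h => Nat.add_right_cancel h)
      intro s hs
      simp only [Finset.coe_filter, Finset.mem_Ico, Finset.mem_range, Set.mem_ofPred_eq] at hs ⊢
      obtain ⟨⟨-, hs1⟩, hs2⟩ := hs
      refine ⟨by omega, ?_⟩
      have h4 : s * ms d L ≤ K * U - j * U := by
        rw [← hsub]
        exact Nat.mul_le_mul_right _ hs1.le
      rw [hr1 _ h4, hr1 _ h4] at hs2
      have e7 : (s + j * q) * ms d L = j * U + s * ms d L := by rw [hUd]; ring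
      rw [e7]
      exact hs2
    have hB : ((Finset.Ico ((K - j) * q) ((K - j) * q + j * q)).filter fun s =>
        td (gp (ed ∘ σ) ω' (s * ms d L) a) (gp (ed ∘ σ) ω' (s * ms d L) b) ≤ 3).card ≤ κ₀ * q := by
      refine le_trans ?_ (o2 _ _ hab2)
      unfold clo
      refine Finset.card_le_card_of_injOn (fun s => s - (K - j) * q) ?_ ?_
      · intro s hs
        simp only [Finset.coe_filter, Finset.mem_Ico, Finset.mem_range, Set.mem_ofPred_eq] at hs ⊢
        obtain ⟨⟨hs0, hs1⟩, hs2⟩ := hs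
        obtain ⟨t, rfl⟩ : ∃ t, s = (K - j) * q + t := ⟨s - (K - j) * q, by omega⟩
        have e0 : (K - j) * q + t - (K - j) * q = t := by omega
        rw [e0]
        refine ⟨by omega, ?_⟩
        have h4 : t * ms d L ≤ j * U := by
          rw [hUq]
          exact Nat.mul_le_mul_right _ (by omega)
        have e7 : ((K - j) * q + t) * ms d L = K * U - j * U + t * ms d L := by
          rw [Nat.add_mul, hsub]
        rw [e7, hr2 _ h4, hr2 _ h4] at hs2
        exact hs2
      · intro x hx y hy hxy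
        simp only [Finset.coe_filter, Finset.mem_Ico, Set.mem_ofPred_eq] at hx hy hxy
        omega
    have e8 : 2 * κ₀ * q = κ₀ * q + κ₀ * q := by ring
    rw [e8]
    exact Nat.add_le_add hA hB

end Pool.Agent.Q277.LC
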