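import Pool.Agent.Q277.LC.Pe
import Pool.Agent.Q277.LC.Omr
import Pool.Agent.Q277.LC.Kha
import Pool.Agent.Q154.LC.Gdm
import Pool.Agent.Q68.LC.Grn
import Pool.Agent.Q68.LC.Bas2

/-!
# Project LC: marked particles are sparse (jobs LC-BAD, LC-BTL of helper292)
-/

set_option autoImplicit false
set_option linter.unusedSectionVars false
set_option linter.unusedVariables false

namespace Pool.Agent.Q277.LC

open Finset Equiv Matrix Q292.LC
open Pool.Agent.Q151.LC (sig_per mem_bal)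
open Pool.Agent.Q68.LC (EE_congr EE_const EE_add EE_smul EE_mono EE_succ)

section torus

variable {d L : ℕ} [NeZero L]

/-- from the bound of the Green function to the bordered determinant -/
theorem bd_of_ker (σ : ℕ → (Fin d → ZMod L) × Fin d) (q K lam r ρ κ₀ : ℕ) (C δ w κ : ℝ)
    (hC : 0 ≤ C) (hδ0 : 0 ≤ δ) (hδ1 : δ ≤ 1) (hw1 : w < 1) (hL : 0 < L)
    (hκ : C * ((K : ℝ) ^ (-(d / 2 : ℝ)) + 1 / ((L : ℝ) ^ d * (1 - w))) ≤ κ)
    (hker : ∀ (ω : ℕ → Bool) (R : Finset (Fin d → ZMod L)), Gd σ q K lam r ρ κ₀ ω R →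
      ∀ (w : ℝ) (U : Finset (Fin d → ZMod L)) (x y : Fin d → ZMod L), 0 ≤ w → w < 1 →
      Disjoint U R → x ∉ R → x ∉ U → y ∉ U → ∀ N : ℕ,
      ∑ k ∈ Finset.range N, w ^ (k + 1) * (TT (ed ∘ σ) ω R δ (K * (q * ms d L)) *
        (dg U * TT (ed ∘ σ) ω R δ (K * (q * ms d L))) ^ k) x y ≤
        C * ((K : ℝ) ^ (-(d / 2 : ℝ)) + 1 / ((L : ℝ) ^ d * (1 - w)))) :
    ∀ (ω : ℕ → Bool) (R : Finset (Fin d → ZMod L)), Gd σ q K lam r ρ κ₀ ω R →
      ∀ w' : ℝ, 0 ≤ w' → w' ≤ w → ∀ U : Finset (Fin d → ZMod L), Disjoint U R →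
      ∀ x, x ∉ R → x ∉ U → ∀ y, y ∉ U →
      bd w' U (TT (ed ∘ σ) ω R δ (K * (q * ms d L))) x y -
        dS w' U (TT (ed ∘ σ) ω R δ (K * (q * ms d L))) ≤
        κ * dS w' U (TT (ed ∘ σ) ω R δ (K * (q * ms d L))) := by
  intro ω R hG w' hw0 hww U hUR x hxR hxU y hyU
  obtain ⟨b1, b2, -⟩ := Pool.Agent.Q68.LC.bas2 (Fin d → ZMod L) (ed ∘ σ) ω R δ hδ0 hδ1
  have hw1' : w' < 1 := lt_of_le_of_lt hww hw1
  obtain ⟨-, g2⟩ := Pool.Agent.Q68.LC.grn (Fin d → ZMod L)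
    (TT (ed ∘ σ) ω R δ (K * (q * ms d L))) w' κ U x y (fun a b => b1 _ a b)
    (fun a => (b2 _ a).le) hw0 hw1'
  refine g2 fun N => ?_
  refine le_trans (hker ω R hG w' U x y hw0 hw1' hUR hxR hxU hyU N) (le_trans ?_ hκ)
  refine mul_le_mul_of_nonneg_left ?_ hC
  have hLp : (0 : ℝ) < (L : ℝ) ^ d := by
    have : (0 : ℝ) < L := by exact_mod_cast hL
    positivity
  have h1 : 1 / ((L : ℝ) ^ d * (1 - w')) ≤ 1 / ((L : ℝ) ^ d * (1 - w)) := by
    refine one_div_le_one_div_of_le (by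
      have : 0 < 1 - w := by linarith
      positivity) ?_
    exact mul_le_mul_of_nonneg_left (by linarith) hLp.le
  linarith

theorem ms_pos' (hd : 1 ≤ d) : 0 < ms d L := by
  unfold ms
  have : 0 < L := Nat.pos_of_ne_zero (NeZero.ne L)
  positivity

end torus

/-- consequences of `1 ≤ δ q` -/
theorem del_pos {δ : ℝ} {q : ℕ} (hq : 2 ≤ q) (h1 : 1 ≤ δ * q) (h2 : δ * q ≤ 2) :
    0 < δ ∧ δ ≤ 1 := by
  have hqR : (2 : ℝ) ≤ q := by exact_mod_cast hq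
  constructor
  · by_contra h
    push Not at h
    have : δ * q ≤ 0 := mul_nonpos_of_nonpos_of_nonneg h (by linarith)
    linarith
  · by_contra h
    push Not at h
    nlinarith

theorem bad (hK : Q292.LC.S_KER) : Q292.LC.S_BAD := by
  classical
  intro d hd
  obtain ⟨C, m, hC1, hC⟩ := hK d hd
  refine ⟨C, m, hC1, ?_⟩
  intro Z hZ L K lam r ρ κ₀ _ h1 h2 h3 h4 h5 h6 h7
  obtain ⟨q₀, hq₀⟩ := hC Z hZ L K lam r ρ (2 * κ₀) h1 h2 h3 h4 h5 h6 h7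
  refine ⟨max q₀ 2, ?_⟩
  intro q hq σ hσ δ hδ1 hδ2 w hw0 hw1 κ hκ hlκ
  have hqq : q₀ ≤ q := le_trans (le_max_left _ _) hq
  have hq2 : 2 ≤ q := le_trans (le_max_right _ _) hq
  obtain ⟨hδ0, hδle⟩ := del_pos hq2 hδ1 hδ2
  have hL0 : 0 < L := Nat.pos_of_ne_zero (NeZero.ne L)
  have hZm : 1 ≤ Z ^ m := Nat.one_le_pow _ _ (by omega)
  have hK1 : 0 < K := by omega
  have hL3 : 3 ≤ L := by omega
  have hLp : (0 : ℝ) < (L : ℝ) ^ d := by
    have : (0 : ℝ) < L := by exact_mod_cast hL0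
    positivity
  have hκ0 : 0 ≤ κ := by
    rw [hκ]
    have : 0 < 1 - w := by linarith
    positivity
  have hms : 0 < ms d L := ms_pos' (by omega)
  have hU : 0 < q * ms d L := Nat.mul_pos (by omega) hms
  obtain ⟨g1, g2⟩ := Pool.Agent.Q154.LC.gdm d L σ q K lam r ρ (2 * κ₀)
  have hmain := Pool.Agent.Q257.LC.badp (Fin d → ZMod L) (ed ∘ σ) (q * ms d L) K lam
    ((2 * r + 1) ^ d) δ w κ (fun v => bal v r) (fun ω => Om σ q K ρ κ₀ ω)
    (fun ω R => Gd σ q K lam r ρ (2 * κ₀) ω R) hδ0.le hδle hw0 hw1 hκ0 hlκ hU hK1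
    (fun k => by simp only [Function.comp_apply]; rw [sig_per hσ])
    (fun v => card_bal_le v r) g1 g2
    (bd_of_ker σ q K lam r ρ (2 * κ₀) C δ w κ (by positivity) hδ0.le hδle hw1 hL0 hκ.ge
      (fun ω R hG => hq₀ q hqq σ hσ δ hδ1 hδ2 ω R hG))
    (fun ω hOm j hj R hR => omr d L (by omega) hL3 σ hσ q K lam r ρ κ₀ j ω (by omega) hj hOm R hR)
  refine le_trans hmain ?_
  have hcard : (Fintype.card (Fin d → ZMod L) : ℝ) = (L : ℝ) ^ d := by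
    rw [Fintype.card_fun, Fintype.card_fin, ZMod.card]
    push_cast
    rfl
  rw [hcard]
  obtain ⟨b, hb⟩ : ∃ b : ℕ, b = (2 * r + 1) ^ d := ⟨_, rfl⟩
  have hbR : ((2 * r + 1 : ℕ) : ℝ) ^ d = (b : ℝ) := by rw [hb]; push_cast; ring
  rw [← hb, hbR]
  have hch : (b.choose (lam + 1) : ℝ) ≤ (b : ℝ) ^ (lam + 1) := by
    exact_mod_cast Nat.choose_le_pow b (lam + 1)
  have hx0 : 0 ≤ ((lam : ℝ) + 2) * κ := by positivity
  calc (K : ℝ) * ((L : ℝ) ^ d) ^ 2 * (b.choose (lam + 1) : ℝ) * (lam + 1) * ((lam + 2) * κ) ^ lam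
      ≤ (K : ℝ) * ((L : ℝ) ^ d) ^ 2 * (b : ℝ) ^ (lam + 1) * (lam + 1) * ((lam + 2) * κ) ^ lam := by
        have h8 : 0 ≤ ((lam : ℝ) + 2) * κ := hx0
        gcongr
    _ = K * (L : ℝ) ^ (2 * d) * (lam + 1) * (b : ℝ) * ((b : ℝ) * ((lam + 2) * κ)) ^ lam := by
        have h9 : ((L : ℝ) ^ d) ^ 2 = (L : ℝ) ^ (2 * d) := by rw [← pow_mul, mul_comm]
        rw [h9, mul_pow (b : ℝ), pow_succ]
        ring

/-- regular particles and no violation imply a good environment -/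
theorem gd_of_om {d L : ℕ} [NeZero L] (σ : ℕ → (Fin d → ZMod L) × Fin d) (q K lam r ρ κ₀ : ℕ)
    (ω : ℕ → Bool) (A : Finset (Fin d → ZMod L)) (h1 : Om σ q K ρ κ₀ ω)
    (h2 : ¬ viol (ed ∘ σ) (q * ms d L) K (fun v => bal v r) lam ω A) :
    Gd σ q K lam r ρ (2 * κ₀) ω A := by
  refine ⟨h2, fun j hj a _ => h1.1 j hj a, fun a _ b _ hab => ?_⟩
  refine le_trans (h1.2 a b hab) ?_
  exact Nat.mul_le_mul_right _ (by omega)

theorem PE_ind {V : Type} [Fintype V] [DecidableEq V] (e : ℕ → V × V) (n : ℕ) (δ w : ℝ)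
    (B : (ℕ → Bool) → Finset V → Prop) [∀ ω A, Decidable (B ω A)] :
    PE e n δ w (fun ω A => if B ω A then 1 else 0) = PW e n δ w B := by
  unfold PE PW
  congr 1
  funext ω
  refine Finset.sum_congr rfl fun A _ => ?_
  by_cases h1 : Inv (gp e ω n) A <;> by_cases h2 : B ω A <;> simp [h1, h2]

open Classical in
theorem btl (hK : Q292.LC.S_KER) (hO : Q292.LC.S_OMP) : Q292.LC.S_BTL := by
  intro d hd
  obtain ⟨C1, m1, hC1, hK1⟩ := hK d hd
  obtain ⟨C2, m2, hC2, hB⟩ := bad hK d hd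
  obtain ⟨C3, hC3, hO3⟩ := hO d hd
  obtain ⟨C, hC⟩ : ∃ C, C = max C1 (max C2 C3) := ⟨_, rfl⟩
  obtain ⟨m, hm⟩ : ∃ m, m = max m1 m2 := ⟨_, rfl⟩
  have c1 : C1 ≤ C := by rw [hC]; exact le_max_left _ _
  have c2 : C2 ≤ C := by rw [hC]; exact le_trans (le_max_left _ _) (le_max_right _ _)
  have c3 : C3 ≤ C := by rw [hC]; exact le_trans (le_max_right _ _) (le_max_right _ _)
  have m1' : m1 ≤ m := by rw [hm]; exact le_max_left _ _
  have m2' : m2 ≤ m := by rw [hm]; exact le_max_right _ _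
  refine ⟨C, m, by omega, ?_⟩
  intro Z hZ L K lam r ρ κ₀ _ h1 h2 h3 h4 h5 h6 h7 h8
  have hZ1 : 1 ≤ Z := by omega
  have p1 : Z ^ m1 ≤ Z ^ m := Nat.pow_le_pow_right hZ1 m1'
  have p2 : Z ^ m2 ≤ Z ^ m := Nat.pow_le_pow_right hZ1 m2'
  have hZm : 1 ≤ Z ^ m := Nat.one_le_pow _ _ hZ1
  have hL3 : 3 ≤ L := by omega
  obtain ⟨q1, hq1⟩ := hK1 Z (by omega) L K lam r ρ (2 * κ₀) h1 h2 h3 h4 (by omega) (by omega)
    (by omega)
  obtain ⟨q2, hq2⟩ := hB Z (by omega) L K lam r ρ κ₀ h1 h2 h3 h4 (by omega) (by omega)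
    (by omega)
  obtain ⟨q3, hq3⟩ := hO3 L hL3 K h8 ρ κ₀
  refine ⟨max (max q1 q2) (max q3 2), ?_⟩
  intro q hq σ hσ δ hδ1 hδ2 w hw0 hw1 κ hκ hlκ
  have e1 : q1 ≤ q := le_trans (le_trans (le_max_left _ _) (le_max_left _ _)) hq
  have e2 : q2 ≤ q := le_trans (le_trans (le_max_right _ _) (le_max_left _ _)) hq
  have e3 : q3 ≤ q := le_trans (le_trans (le_max_left _ _) (le_max_right _ _)) hq
  have e4 : 2 ≤ q := le_trans (le_trans (le_max_right _ _) (le_max_right _ _)) hq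
  obtain ⟨hδ0, hδle⟩ := del_pos e4 hδ1 hδ2
  have hL0 : 0 < L := Nat.pos_of_ne_zero (NeZero.ne L)
  have hLp : (0 : ℝ) < (L : ℝ) ^ d := by
    have : (0 : ℝ) < L := by exact_mod_cast hL0
    positivity
  have hbr : 0 ≤ ((K : ℝ) ^ (-(d / 2 : ℝ)) + 1 / ((L : ℝ) ^ d * (1 - w))) := by
    have : 0 < 1 - w := by linarith
    positivity
  have hκ0 : 0 ≤ κ := by rw [hκ]; positivity
  obtain ⟨P1, P2, P3, P4, P5, P6⟩ := peb (Fin d → ZMod L) (ed ∘ σ) (K * (q * ms d L)) δ w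
    hδ0.le hδle hw0 hw1
  constructor
  · -- first claim
    obtain ⟨κ', hκ'⟩ : ∃ κ', κ' = C2 * ((K : ℝ) ^ (-(d / 2 : ℝ)) + 1 / ((L : ℝ) ^ d * (1 - w))) :=
      ⟨_, rfl⟩
    have hκκ : κ' ≤ κ := by
      rw [hκ', hκ]
      exact mul_le_mul_of_nonneg_right (by exact_mod_cast c2) hbr
    have hκ0' : 0 ≤ κ' := by rw [hκ']; positivity
    have hl' : ((lam : ℝ) + 2) * κ' ≤ 1 :=
      le_trans (mul_le_mul_of_nonneg_left hκκ (by positivity)) hlκ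
    have t2 := hq2 q e2 σ hσ δ hδ1 hδ2 w hw0 hw1 κ' hκ' hl'
    have t3 := hq3 q e3 σ hσ δ hδ1 hδ2
    rw [← P5]
    refine le_trans (P4 _ (fun ω A =>
          (if Om σ q K ρ κ₀ ω then (0 : ℝ) else 1) +
          (if Om σ q K ρ κ₀ ω ∧ viol (ed ∘ σ) (q * ms d L) K (fun v => bal v r) lam ω A
            then (1 : ℝ) else 0)) ?_) ?_
    · intro ω A _
      by_cases ho : Om σ q K ρ κ₀ ω
      · by_cases hv : viol (ed ∘ σ) (q * ms d L) K (fun v => bal v r) lam ω A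
        · simp only [ho, hv, and_self, if_true]
          split_ifs <;> norm_num
        · have hGd := gd_of_om σ q K lam r ρ κ₀ ω A ho hv
          simp only [hGd, ho, hv, not_true_eq_false, and_false, if_true, if_false]
          norm_num
      · simp only [ho, false_and, if_false]
        split_ifs <;> norm_num
    rw [P2, P1, PE_ind]
    refine add_le_add ?_ ?_
    · refine le_trans t3 ?_
      have s1 : (1 / 2 : ℝ) ^ (κ₀ / C3) ≤ (1 / 2) ^ (κ₀ / C) := by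
        refine pow_le_pow_of_le_one (by norm_num) (by norm_num) ?_
        exact Nat.div_le_div_left c3 (by omega)
      have s2 : (C3 : ℝ) ≤ C := by exact_mod_cast c3
      have s3 : 0 ≤ Real.exp (-(ρ : ℝ)) := (Real.exp_pos _).le
      have s4 : (0 : ℝ) ≤ (L : ℝ) ^ (2 * d) := by positivity
      calc (C3 : ℝ) * ((L : ℝ) ^ (2 * d) * Real.exp (-(ρ : ℝ)) +
            (L : ℝ) ^ (2 * d) * (1 / 2) ^ (κ₀ / C3))
          ≤ (C : ℝ) * ((L : ℝ) ^ (2 * d) * Real.exp (-(ρ : ℝ)) +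
            (L : ℝ) ^ (2 * d) * (1 / 2) ^ (κ₀ / C3)) :=
            mul_le_mul_of_nonneg_right s2 (by positivity)
        _ ≤ _ := by
            refine mul_le_mul_of_nonneg_left ?_ (by positivity)
            have := mul_le_mul_of_nonneg_left s1 s4
            linarith
    · refine le_trans t2 ?_
      have s5 : (0 : ℝ) ≤ ((2 * r + 1 : ℕ) : ℝ) ^ d * (((lam : ℝ) + 2) * κ') := by positivity
      have s6 : ((2 * r + 1 : ℕ) : ℝ) ^ d * (((lam : ℝ) + 2) * κ') ≤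
          ((2 * r + 1 : ℕ) : ℝ) ^ d * (((lam : ℝ) + 2) * κ) := by
        refine mul_le_mul_of_nonneg_left (mul_le_mul_of_nonneg_left hκκ (by positivity))
          (by positivity)
      exact mul_le_mul_of_nonneg_left (pow_le_pow_left₀ s5 s6 _) (by positivity)
  · intro x
    obtain ⟨g1, g2⟩ := Pool.Agent.Q154.LC.gdm d L σ q K lam r ρ (2 * κ₀)
    refine mrk (Fin d → ZMod L) (ed ∘ σ) (K * (q * ms d L)) δ w κ
      (fun ω A => Gd σ q K lam r ρ (2 * κ₀) ω A) hδ0.le hδle hw0 hw1 hκ0 g1 g2 ?_ x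
    intro ω R hG U hUR x hxR hxU y hyU
    refine bd_of_ker σ q K lam r ρ (2 * κ₀) C1 δ w κ (by positivity) hδ0.le hδle hw1 hL0 ?_
      (fun ω R hG => hq1 q e1 σ hσ δ hδ1 hδ2 ω R hG) ω R hG w hw0 le_rfl U hUR x hxR hxU y hyU
    rw [hκ]
    exact mul_le_mul_of_nonneg_right (by exact_mod_cast c1) hbr

end Pool.Agent.Q277.LC
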