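import Pool.Agent.Q295.PL.Stm2
import Pool.Agent.Q277.LC.Bad

/-!
# Project LC2: marked particles are sparse, all dimensions (job L2-BTT of helper295)
-/

set_option autoImplicit false
set_option linter.unusedSectionVars false
set_option linter.unusedVariables false

namespace Pool.Agent.Q277.LC

open Finset Equiv Matrix Q292.LC
open Pool.Agent.Q151.LC (sig_per mem_bal)
open Pool.Agent.Q68.LC (EE_congr EE_const EE_add EE_smul EE_mono EE_succ)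

section torus

variable {d L : ℕ} [NeZero L]

/-- from the bound of the Green function to the bordered determinant -/
theorem bd_of_green (σ : ℕ → (Fin d → ZMod L) × Fin d) (q K lam r ρ κ₀ : ℕ) (δ w κ : ℝ)
    (hδ0 : 0 ≤ δ) (hδ1 : δ ≤ 1) (hw1 : w < 1)
    (hker : ∀ (ω : ℕ → Bool) (R : Finset (Fin d → ZMod L)), Gd σ q K lam r ρ κ₀ ω R →
      ∀ (w' : ℝ) (U : Finset (Fin d → ZMod L)) (x y : Fin d → ZMod L), 0 ≤ w' → w' ≤ w →
      Disjoint U R → x ∉ R → x ∉ U → y ∉ U → ∀ N : ℕ,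
      ∑ k ∈ Finset.range N, w' ^ (k + 1) * (TT (ed ∘ σ) ω R δ (K * (q * ms d L)) *
        (dg U * TT (ed ∘ σ) ω R δ (K * (q * ms d L))) ^ k) x y ≤ κ) :
    ∀ (ω : ℕ → Bool) (R : Finset (Fin d → ZMod L)), Gd σ q K lam r ρ κ₀ ω R →
      ∀ w' : ℝ, 0 ≤ w' → w' ≤ w → ∀ U : Finset (Fin d → ZMod L), Disjoint U R →
      ∀ x, x ∉ R → x ∉ U → ∀ y, y ∉ U →
      bd w' U (TT (ed ∘ σ) ω R δ (K * (q * ms d L))) x y -
        dS w' U (TT (ed ∘ σ) ω R δ (K * (q * ms d L))) ≤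
        κ * dS w' U (TT (ed ∘ σ) ω R δ (K * (q * ms d L))) := by
  intro ω R hG w' hw0 hww U hUR x hxR hxU y hyU
  obtain ⟨b1, b2, -⟩ := Pool.Agent.Q68.LC.bas2 (Fin d → ZMod L) (ed ∘ σ) ω R δ hδ0 hδ1
  have hw1' : w' < 1 := lt_of_le_of_lt hww hw1
  obtain ⟨-, g2⟩ := Pool.Agent.Q68.LC.grn (Fin d → ZMod L)
    (TT (ed ∘ σ) ω R δ (K * (q * ms d L))) w' κ U x y (fun a b => b1 _ a b)
    (fun a => (b2 _ a).le) hw0 hw1'
  exact g2 fun N => hker ω R hG w' U x y hw0 hww hUR hxR hxU hyU N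

/-- BADP for the torus -/
theorem bad_gen (hd : 1 ≤ d) (hL3 : 3 ≤ L) (σ : ℕ → (Fin d → ZMod L) × Fin d) (hσ : Per σ)
    (q K lam r ρ κ₀ : ℕ) (δ w κ : ℝ) (hδ0 : 0 ≤ δ) (hδ1 : δ ≤ 1) (hw0 : 0 ≤ w) (hw1 : w < 1)
    (hκ0 : 0 ≤ κ) (hlκ : (lam + 2) * κ ≤ 1) (hq : 1 ≤ q) (hK1 : 1 ≤ K)
    (hker : ∀ (ω : ℕ → Bool) (R : Finset (Fin d → ZMod L)), Gd σ q K lam r ρ (2 * κ₀) ω R →
      ∀ (w' : ℝ) (U : Finset (Fin d → ZMod L)) (x y : Fin d → ZMod L), 0 ≤ w' → w' ≤ w →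
      Disjoint U R → x ∉ R → x ∉ U → y ∉ U → ∀ N : ℕ,
      ∑ k ∈ Finset.range N, w' ^ (k + 1) * (TT (ed ∘ σ) ω R δ (K * (q * ms d L)) *
        (dg U * TT (ed ∘ σ) ω R δ (K * (q * ms d L))) ^ k) x y ≤ κ) :
    PW (ed ∘ σ) (K * (q * ms d L)) δ w (fun ω A => Om σ q K ρ κ₀ ω ∧
      viol (ed ∘ σ) (q * ms d L) K (fun v => bal v r) lam ω A) ≤
      K * (L : ℝ) ^ (2 * d) * (lam + 1) * ((2 * r + 1 : ℕ) : ℝ) ^ d *
        (((2 * r + 1 : ℕ) : ℝ) ^ d * ((lam + 2) * κ)) ^ lam := by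
  have hL0 : 0 < L := by omega
  have hLp : (0 : ℝ) < (L : ℝ) ^ d := by
    have : (0 : ℝ) < L := by exact_mod_cast hL0
    positivity
  have hms : 0 < ms d L := ms_pos' hd
  have hU : 0 < q * ms d L := Nat.mul_pos (by omega) hms
  obtain ⟨g1, g2⟩ := Pool.Agent.Q154.LC.gdm d L σ q K lam r ρ (2 * κ₀)
  have hmain := Pool.Agent.Q257.LC.badp (Fin d → ZMod L) (ed ∘ σ) (q * ms d L) K lam
    ((2 * r + 1) ^ d) δ w κ (fun v => bal v r) (fun ω => Om σ q K ρ κ₀ ω)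
    (fun ω R => Gd σ q K lam r ρ (2 * κ₀) ω R) hδ0 hδ1 hw0 hw1 hκ0 hlκ hU hK1
    (fun k => by simp only [Function.comp_apply]; rw [sig_per hσ])
    (fun v => card_bal_le v r) g1 g2
    (bd_of_green σ q K lam r ρ (2 * κ₀) δ w κ hδ0 hδ1 hw1 hker)
    (fun ω hOm j hj R hR => omr d L hd hL3 σ hσ q K lam r ρ κ₀ j ω hq hj hOm R hR)
  refine le_trans hmain ?_
  have hcard : (Fintype.card (Fin d → ZMod L) : ℝ) = (L : ℝ) ^ d := by
    rw [Fintype.card_fun, Fintype.card_fin, ZMod.card]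
    push_cast
    rfl
  rw [hcard]
  obtain ⟨b, hb⟩ : ∃ b : ℕ, b = (2 * r + 1) ^ d := ⟨_, rfl⟩
  have hbR : ((2 * r + 1 : ℕ) : ℝ) ^ d = (b : ℝ) := by rw [hb]; push_cast; ring
  rw [← hb, hbR]
  have hch : (b.choose (lam + 1) : ℝ) ≤ (b : ℝ) ^ (lam + 1) := by
    exact_mod_cast Nat.choose_le_pow b (lam + 1)
  have hx0 : 0 ≤ ((lam : ℝ) + 2) * κ := by positivity
  calc (K : ℝ) * ((L : ℝ) ^ d) ^ 2 * (b.choose (lam + 1) : ℝ) * (lam + 1) * ((lam + 2) * κ) ^ lam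
      ≤ (K : ℝ) * ((L : ℝ) ^ d) ^ 2 * (b : ℝ) ^ (lam + 1) * (lam + 1) * ((lam + 2) * κ) ^ lam := by
        have h8 : 0 ≤ ((lam : ℝ) + 2) * κ := hx0
        gcongr
    _ = K * (L : ℝ) ^ (2 * d) * (lam + 1) * (b : ℝ) * ((b : ℝ) * ((lam + 2) * κ)) ^ lam := by
        have h9 : ((L : ℝ) ^ d) ^ 2 = (L : ℝ) ^ (2 * d) := by rw [← pow_mul, mul_comm]
        rw [h9, mul_pow (b : ℝ), pow_succ]
        ring

end torus

open Classical in
theorem btt (hK : Q295.PL.S_KRT) (hO : Q295.PL.S_OMT) : Q295.PL.S_BTT := by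
  intro d hd
  obtain ⟨C1, m, hC1, hK1⟩ := hK d hd
  obtain ⟨C3, hC3, hO3⟩ := hO d hd
  obtain ⟨C, hC⟩ : ∃ C, C = max C1 C3 := ⟨_, rfl⟩
  have c1 : C1 ≤ C := by rw [hC]; exact le_max_left _ _
  have c3 : C3 ≤ C := by rw [hC]; exact le_max_right _ _
  refine ⟨C, m, by omega, ?_⟩
  intro Z hZ L K lam r ρ κ₀ _ h1 h2 h3 h5 h6 h7 h8
  have hZ1 : 1 ≤ Z := by omega
  have hZm : 1 ≤ Z ^ m := Nat.one_le_pow _ _ hZ1
  have hL3 : 3 ≤ L := by omega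
  obtain ⟨q1, hq1⟩ := hK1 Z (by omega) L K lam r ρ (2 * κ₀) h1 h2 h3 (by omega) (by omega)
    (by omega)
  obtain ⟨q3, hq3⟩ := hO3 L hL3 K h8 ρ κ₀
  refine ⟨max q1 (max q3 2), ?_⟩
  intro q hq σ hσ δ hδ1 hδ2 w hw0 hw1 κ hκ hlκ
  have e1 : q1 ≤ q := le_trans (le_max_left _ _) hq
  have e3 : q3 ≤ q := le_trans (le_trans (le_max_left _ _) (le_max_right _ _)) hq
  have e4 : 2 ≤ q := le_trans (le_trans (le_max_right _ _) (le_max_right _ _)) hq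
  obtain ⟨hδ0, hδle⟩ := del_pos e4 hδ1 hδ2
  have hL0 : 0 < L := Nat.pos_of_ne_zero (NeZero.ne L)
  have hLp : (0 : ℝ) < (L : ℝ) ^ d := by
    have : (0 : ℝ) < L := by exact_mod_cast hL0
    positivity
  have hbr : ∀ w' : ℝ, 0 ≤ w' → w' ≤ w →
      (Z : ℝ) ^ m * ((1 + Real.log (1 / (1 - w'))) / K + 1 / ((L : ℝ) ^ d * (1 - w'))) ≤ κ := by
    intro w' hw0' hww
    rw [hκ]
    have h9 : 0 < 1 - w := by linarith
    have h10 : 1 - w ≤ 1 - w' := by linarith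
    have h11 : 0 < 1 - w' := by linarith
    refine mul_le_mul_of_nonneg_left ?_ (by positivity)
    refine add_le_add ?_ ?_
    · refine div_le_div_of_nonneg_right ?_ (Nat.cast_nonneg _)
      have := Real.log_le_log (by positivity : 0 < 1 / (1 - w'))
        (one_div_le_one_div_of_le h9 h10)
      linarith
    · exact one_div_le_one_div_of_le (by positivity) (mul_le_mul_of_nonneg_left h10 hLp.le)
  have hκ0 : 0 ≤ κ := by
    rw [hκ]
    have h9 : 0 < 1 - w := by linarith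
    have h10 : 0 ≤ Real.log (1 / (1 - w)) := by
      refine Real.log_nonneg ?_
      rw [one_le_div h9]
      linarith
    positivity
  have hker : ∀ (ω : ℕ → Bool) (R : Finset (Fin d → ZMod L)), Gd σ q K lam r ρ (2 * κ₀) ω R →
      ∀ (w' : ℝ) (U : Finset (Fin d → ZMod L)) (x y : Fin d → ZMod L), 0 ≤ w' → w' ≤ w →
      Disjoint U R → x ∉ R → x ∉ U → y ∉ U → ∀ N : ℕ,
      ∑ k ∈ Finset.range N, w' ^ (k + 1) * (TT (ed ∘ σ) ω R δ (K * (q * ms d L)) *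
        (dg U * TT (ed ∘ σ) ω R δ (K * (q * ms d L))) ^ k) x y ≤ κ := by
    intro ω R hG w' U x y hw0' hww hUR hxR hxU hyU N
    exact le_trans (hq1 q e1 σ hσ δ hδ1 hδ2 ω R hG w' U x y hw0' (lt_of_le_of_lt hww hw1)
      hUR hxR hxU hyU N) (hbr w' hw0' hww)
  obtain ⟨P1, P2, P3, P4, P5, P6⟩ := peb (Fin d → ZMod L) (ed ∘ σ) (K * (q * ms d L)) δ w
    hδ0.le hδle hw0 hw1
  constructor
  · have t2 := bad_gen (by omega) hL3 σ hσ q K lam r ρ κ₀ δ w κ hδ0.le hδle hw0 hw1 hκ0 hlκ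
      (by omega) (by omega) hker
    have t3 := hq3 q e3 σ hσ δ hδ1 hδ2
    rw [← P5]
    refine le_trans (P4 _ (fun ω A =>
          (if Om σ q K ρ κ₀ ω then (0 : ℝ) else 1) +
          (if Om σ q K ρ κ₀ ω ∧ viol (ed ∘ σ) (q * ms d L) K (fun v => bal v r) lam ω A
            then (1 : ℝ) else 0)) ?_) ?_
    · intro ω A _
      by_cases ho : Om σ q K ρ κ₀ ω
      · by_cases hv : viol (ed ∘ σ) (q * ms d L) K (fun v => bal v r) lam ω A
        · simp only [ho, hv, and_self, if_true]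
          split_ifs <;> norm_num
        · have hGd := gd_of_om σ q K lam r ρ κ₀ ω A ho hv
          simp only [hGd, ho, hv, not_true_eq_false, and_false, if_true, if_false]
          norm_num
      · simp only [ho, false_and, if_false]
        split_ifs <;> norm_num
    rw [P2, P1, PE_ind]
    refine add_le_add ?_ t2
    refine le_trans t3 ?_
    have s1 : (1 / 2 : ℝ) ^ (κ₀ / (C3 * (1 + Nat.log 2 K))) ≤
        (1 / 2) ^ (κ₀ / (C * (1 + Nat.log 2 K))) := by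
      refine pow_le_pow_of_le_one (by norm_num) (by norm_num) ?_
      refine Nat.div_le_div_left (Nat.mul_le_mul_right _ c3) ?_
      exact Nat.mul_pos (by omega) (by omega)
    have s2 : (C3 : ℝ) ≤ C := by exact_mod_cast c3
    have s3 : 0 ≤ Real.exp (-(ρ : ℝ)) := (Real.exp_pos _).le
    have s4 : (0 : ℝ) ≤ (L : ℝ) ^ (2 * d) := by positivity
    calc (C3 : ℝ) * ((L : ℝ) ^ (2 * d) * Real.exp (-(ρ : ℝ)) +
          (L : ℝ) ^ (2 * d) * (1 / 2) ^ (κ₀ / (C3 * (1 + Nat.log 2 K))))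
        ≤ (C : ℝ) * ((L : ℝ) ^ (2 * d) * Real.exp (-(ρ : ℝ)) +
          (L : ℝ) ^ (2 * d) * (1 / 2) ^ (κ₀ / (C3 * (1 + Nat.log 2 K)))) :=
          mul_le_mul_of_nonneg_right s2 (by positivity)
      _ ≤ _ := by
          refine mul_le_mul_of_nonneg_left ?_ (by positivity)
          have := mul_le_mul_of_nonneg_left s1 s4
          linarith
  · intro x
    obtain ⟨g1, g2⟩ := Pool.Agent.Q154.LC.gdm d L σ q K lam r ρ (2 * κ₀)
    refine mrk (Fin d → ZMod L) (ed ∘ σ) (K * (q * ms d L)) δ w κ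
      (fun ω A => Gd σ q K lam r ρ (2 * κ₀) ω A) hδ0.le hδle hw0 hw1 hκ0 g1 g2 ?_ x
    intro ω R hG U hUR x hxR hxU y hyU
    exact bd_of_green σ q K lam r ρ (2 * κ₀) δ w κ hδ0.le hδle hw1 hker
      ω R hG w hw0 le_rfl U hUR x hxR hxU y hyU

end Pool.Agent.Q277.LC
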