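import Pool.Agent.Q295.PL.Stm2

/-!
# Project LC2: all sizes of the torus at fixed time (job L2-FXT of helper295)
-/

set_option autoImplicit false
set_option linter.unusedSectionVars false
set_option linter.unusedVariables false

namespace Pool.Agent.Q277.LC

open Finset Equiv Matrix Q292.LC
open Pool.Agent.Y998.ST (stirExp stirLaw nnRate)

theorem exp_gap (k : ℕ) : ∃ s₀ : ℝ, 3 ≤ s₀ ∧ ∀ s : ℝ, s₀ ≤ s →
    Real.exp s * (s ^ k + 1) * 8 + 24 ≤ Real.exp (s ^ 2) := by
  have hf : (0 : ℝ) < (k.factorial : ℝ) := by exact_mod_cast Nat.factorial_pos k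
  refine ⟨3 + Real.log (40 * k.factorial), ?_, ?_⟩
  · have h1 : (1 : ℝ) ≤ 40 * k.factorial := by
      have : (1 : ℝ) ≤ (k.factorial : ℝ) := by exact_mod_cast Nat.factorial_pos k
      linarith
    have := Real.log_nonneg h1
    linarith
  intro s hs
  have h1 : (1 : ℝ) ≤ (k.factorial : ℝ) := by exact_mod_cast Nat.factorial_pos k
  have hlog : 0 ≤ Real.log (40 * k.factorial) := Real.log_nonneg (by linarith)
  have hs3 : 3 ≤ s := by linarith
  have hs0 : 0 ≤ s := by linarith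
  have h2 : s ^ k / (k.factorial : ℝ) ≤ Real.exp s := Real.pow_div_factorial_le_exp s hs0 k
  rw [div_le_iff₀ hf] at h2
  have h3 : 1 ≤ Real.exp s := Real.one_le_exp hs0
  have h4 : (1 : ℝ) ≤ Real.exp s * k.factorial := by nlinarith
  have h5 : Real.exp s * (s ^ k + 1) * 8 + 24 ≤ 40 * k.factorial * Real.exp (2 * s) := by
    have e1 : Real.exp (2 * s) = Real.exp s * Real.exp s := by rw [← Real.exp_add]; ring_nf
    rw [e1]
    have h6 : Real.exp s * s ^ k ≤ Real.exp s * (Real.exp s * k.factorial) :=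
      mul_le_mul_of_nonneg_left h2 (Real.exp_pos s).le
    have h7 : Real.exp s * 1 ≤ Real.exp s * (Real.exp s * k.factorial) :=
      mul_le_mul_of_nonneg_left h4 (Real.exp_pos s).le
    have h8 : 1 ≤ Real.exp s * (Real.exp s * k.factorial) := by nlinarith
    linarith
  refine h5.trans ?_
  have h9 : (40 : ℝ) * k.factorial = Real.exp (Real.log (40 * k.factorial)) :=
    (Real.exp_log (by positivity)).symm
  rw [h9, ← Real.exp_add]
  refine Real.exp_le_exp.2 ?_
  nlinarith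

theorem big_t (C2 : ℝ) (d : ℕ) (hC2 : 1 ≤ C2) (t : ℝ) (ht : d + 2 + C2 ≤ t) :
    C2 * Real.exp (d * t) * t * Real.exp (-(t ^ 2)) ≤ 1 / t := by
  have hd : (0 : ℝ) ≤ d := Nat.cast_nonneg d
  have ht1 : 1 ≤ t := by linarith
  have ht0 : 0 < t := by linarith
  rw [le_div_iff₀ ht0]
  have h1 : C2 ≤ Real.exp (C2 * t) := by
    have := Real.add_one_le_exp (C2 * t)
    nlinarith
  have h2 : t ≤ Real.exp t := by
    have := Real.add_one_le_exp t
    linarith
  have h3 : C2 * (t * t) ≤ Real.exp (C2 * t) * (Real.exp t * Real.exp t) := by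
    have h4 : t * t ≤ Real.exp t * Real.exp t := mul_le_mul h2 h2 ht0.le (Real.exp_pos _).le
    exact mul_le_mul h1 h4 (by positivity) (Real.exp_pos _).le
  have h5 : Real.exp (C2 * t) * (Real.exp t * Real.exp t) * Real.exp (d * t) *
      Real.exp (-(t ^ 2)) ≤ 1 := by
    rw [← Real.exp_add, ← Real.exp_add, ← Real.exp_add, ← Real.exp_add]
    rw [Real.exp_le_one_iff]
    nlinarith
  have h6 : 0 ≤ Real.exp (d * t) * Real.exp (-(t ^ 2)) := by positivity
  calc C2 * Real.exp (d * t) * t * Real.exp (-(t ^ 2)) * t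
      = (C2 * (t * t)) * (Real.exp (d * t) * Real.exp (-(t ^ 2))) := by ring
    _ ≤ (Real.exp (C2 * t) * (Real.exp t * Real.exp t)) *
        (Real.exp (d * t) * Real.exp (-(t ^ 2))) := mul_le_mul_of_nonneg_right h3 h6
    _ = Real.exp (C2 * t) * (Real.exp t * Real.exp t) * Real.exp (d * t) *
        Real.exp (-(t ^ 2)) := by ring
    _ ≤ 1 := h5

theorem fxt (h1 : Q295.PL.S_TST) (h2 : Q292.LC.S_LCS) : Q295.PL.S_FXT := by
  intro d hd ε hε
  obtain ⟨C1, m, hC1, hT⟩ := h1 d hd ε hε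
  obtain ⟨C2, hC2, hL⟩ := h2 d (by omega)
  obtain ⟨s₀, hs3, hs⟩ := exp_gap (6 * m)
  obtain ⟨CF, hCF⟩ : ∃ CF : ℝ, CF = 2 * C1 + 1 + m + s₀ ^ (2 * m) + (d + 2 + C2) := ⟨_, rfl⟩
  have hp0 : 0 ≤ s₀ ^ (2 * m) := by positivity
  have hm0 : (0 : ℝ) ≤ m := Nat.cast_nonneg m
  have hd0 : (0 : ℝ) ≤ d := Nat.cast_nonneg d
  refine ⟨CF, if m = 0 then 1 else 1 / (2 * (m : ℝ)), ?_, ?_⟩
  · split_ifs with h
    · norm_num
    · have : (0 : ℝ) < m := by exact_mod_cast Nat.pos_of_ne_zero h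
      positivity
  intro L N _ t ht hN hNt x
  have ht1 : 1 ≤ t := by linarith
  have ht0 : 0 < t := by linarith
  have htm : (m : ℝ) ≤ t := by linarith
  have hLd : (0 : ℝ) < (L : ℝ) ^ d := by
    have : (0 : ℝ) < L := by exact_mod_cast Nat.pos_of_ne_zero (NeZero.ne L)
    positivity
  have hte : 0 < t ^ ε := Real.rpow_pos_of_pos ht0 _
  have hte1 : 1 ≤ t ^ ε := Real.one_le_rpow ht1 hε.le
  have hrhs : C1 * t ^ ε * (1 / t + N / (L : ℝ) ^ d) ≤ CF * t ^ ε * (1 / t + N / (L : ℝ) ^ d) := by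
    refine mul_le_mul_of_nonneg_right (mul_le_mul_of_nonneg_right (by linarith) hte.le) ?_
    positivity
  rcases Nat.eq_zero_or_pos N with hN0 | hN0
  · subst hN0
    have h3 : (fun g : Perm (Fin d → ZMod L) => if (cyc g x).card ≤ 0 then (1 : ℝ) else 0) =
        fun _ => 0 := by
      funext g
      have : x ∈ cyc g x := by
        unfold cyc
        rw [Finset.mem_filter]
        exact ⟨Finset.mem_univ _, Perm.SameCycle.refl g x⟩
      have h4 : 0 < (cyc g x).card := Finset.card_pos.2 ⟨x, this⟩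
      rw [if_neg (by omega)]
    rw [h3, Pool.Agent.Y998.ST.exp_const]
    refine le_trans ?_ hrhs
    positivity
  by_cases hcase : (Real.log L) ^ m ≤ t
  · exact (hT L N t htm hcase hN0 hNt x).trans hrhs
  · push Not at hcase
    have hm1 : m ≠ 0 := by
      rintro rfl
      rw [pow_zero] at hcase
      linarith
    have hmp : (0 : ℝ) < m := by exact_mod_cast Nat.pos_of_ne_zero hm1
    rw [if_neg hm1] at hN
    -- the scale
    obtain ⟨s, hsd⟩ : ∃ s, s = t ^ (1 / (2 * (m : ℝ))) := ⟨_, rfl⟩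
    have hs0 : 0 < s := by rw [hsd]; exact Real.rpow_pos_of_pos ht0 _
    have hts : t = s ^ (2 * m) := by
      rw [hsd, ← Real.rpow_natCast, ← Real.rpow_mul ht0.le]
      push_cast
      rw [one_div_mul_cancel (by positivity), Real.rpow_one]
    have hss : s₀ ≤ s := by
      refine le_of_pow_le_pow_left₀ (n := 2 * m) (by omega) hs0.le ?_
      rw [← hts]
      linarith
    have hgap := hs s hss
    rw [← hsd] at hN
    have ht3 : s ^ (6 * m) = t ^ 3 := by rw [hts, ← pow_mul]; congr 1; ring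
    rw [ht3] at hgap
    -- s ^ 2 < log L
    have hlog0 : 0 ≤ Real.log L := Real.log_natCast_nonneg L
    have hsL : s ^ 2 < Real.log L := by
      refine lt_of_pow_lt_pow_left₀ m hlog0 ?_
      rw [← pow_mul, ← hts]
      exact hcase
    have hL0 : (0 : ℝ) < L := by exact_mod_cast Nat.pos_of_ne_zero (NeZero.ne L)
    have hexpL : Real.exp (s ^ 2) < L := by
      rw [← Real.exp_log hL0]
      exact Real.exp_lt_exp.2 hsL
    obtain ⟨L₀, hL₀⟩ : ∃ L₀ : ℕ, L₀ = ⌊Real.exp (s ^ 2)⌋₊ := ⟨_, rfl⟩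
    have hfl1 : (L₀ : ℝ) ≤ Real.exp (s ^ 2) := by
      rw [hL₀]; exact Nat.floor_le (Real.exp_pos _).le
    have hfl2 : Real.exp (s ^ 2) < (L₀ : ℝ) + 1 := by
      rw [hL₀]; exact Nat.lt_floor_add_one _
    have hLL : L₀ ≤ L := by
      have : (L₀ : ℝ) ≤ L := hfl1.trans hexpL.le
      exact_mod_cast this
    have hes : 1 ≤ Real.exp s := Real.one_le_exp hs0.le
    have ht3' : 1 ≤ t ^ 3 := one_le_pow₀ ht1
    have hL16 : 16 ≤ L₀ := by
      have : (16 : ℝ) ≤ L₀ := by nlinarith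
      exact_mod_cast this
    have : NeZero L₀ := ⟨by omega⟩
    obtain ⟨D, hD⟩ : ∃ D : ℕ, D = ⌈t ^ 3⌉₊ := ⟨_, rfl⟩
    have hD1 : t ^ 3 ≤ D := by rw [hD]; exact Nat.le_ceil _
    have hD2 : (D : ℝ) ≤ t ^ 3 + 1 := by
      rw [hD]; exact (Nat.ceil_lt_add_one (by positivity)).le
    have hNR : (N : ℝ) ≤ Real.exp s := hN
    have hND : N * D ≤ L₀ / 8 := by
      rw [Nat.le_div_iff_mul_le (by norm_num)]
      have h3 : (N : ℝ) * D * 8 ≤ L₀ := by
        have h4 : (N : ℝ) * D ≤ Real.exp s * (t ^ 3 + 1) :=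
          mul_le_mul hNR hD2 (Nat.cast_nonneg _) (Real.exp_pos _).le
        linarith
      exact_mod_cast h3
    have hmain := hL L L₀ (L₀ / 8) (by omega) hLL t N D ht1 hND x 0
    -- the small torus
    have hL0log : (Real.log L₀) ^ m ≤ t := by
      have h3 : Real.log L₀ ≤ s ^ 2 := by
        rw [← Real.log_exp (s ^ 2)]
        refine Real.log_le_log ?_ hfl1
        have : 0 < L₀ := by omega
        exact_mod_cast this
      calc (Real.log L₀) ^ m ≤ (s ^ 2) ^ m :=
            pow_le_pow_left₀ (Real.log_natCast_nonneg L₀) h3 m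
        _ = t := by rw [← pow_mul, hts]
    have htD : t ≤ D := by
      have : t ≤ t ^ 3 := by nlinarith [sq_nonneg (t - 1), mul_nonneg ht0.le (sq_nonneg (t - 1))]
      linarith
    have hNt0 : (N : ℝ) * t ≤ (L₀ : ℝ) ^ d := by
      have h3 : (N : ℝ) * t ≤ N * D := mul_le_mul_of_nonneg_left htD (Nat.cast_nonneg _)
      have h4 : ((N * D : ℕ) : ℝ) ≤ (L₀ : ℝ) := by
        exact_mod_cast hND.trans (Nat.div_le_self _ _)
      push_cast at h4
      have h5 : (L₀ : ℝ) ≤ (L₀ : ℝ) ^ d := by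
        refine le_self_pow₀ ?_ (by omega)
        have : 1 ≤ L₀ := by omega
        exact_mod_cast this
      linarith
    have hsmall := hT L₀ N t htm hL0log hN0 hNt0 0
    have hLd0 : (0 : ℝ) < (L₀ : ℝ) ^ d := by
      have : (0 : ℝ) < L₀ := by
        have : 0 < L₀ := by omega
        exact_mod_cast this
      positivity
    have hfrac : (N : ℝ) / (L₀ : ℝ) ^ d ≤ 1 / t := by
      rw [div_le_div_iff₀ hLd0 ht0, one_mul]
      exact hNt0
    have hA : C1 * t ^ ε * (1 / t + N / (L₀ : ℝ) ^ d) ≤ 2 * C1 * t ^ ε * (1 / t) := by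
      have h3 : C1 * t ^ ε * (1 / t + N / (L₀ : ℝ) ^ d) ≤ C1 * t ^ ε * (1 / t + 1 / t) :=
        mul_le_mul_of_nonneg_left (by linarith) (by positivity)
      linarith
    -- the error
    have hB : C2 * (2 * ((L₀ / 8 : ℕ) : ℝ) + 1) ^ d * t * Real.exp (-(D / t)) ≤ 1 / t := by
      have h3 : 2 * ((L₀ / 8 : ℕ) : ℝ) + 1 ≤ L₀ := by
        have : 2 * (L₀ / 8) + 1 ≤ L₀ := by omega
        exact_mod_cast this
      have h4 : (2 * ((L₀ / 8 : ℕ) : ℝ) + 1) ^ d ≤ Real.exp (d * t) := by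
        have h5 : (L₀ : ℝ) ≤ Real.exp t := by
          refine hfl1.trans (Real.exp_le_exp.2 ?_)
          rw [hts, pow_mul]
          refine le_self_pow₀ ?_ hm1
          nlinarith
        calc (2 * ((L₀ / 8 : ℕ) : ℝ) + 1) ^ d ≤ (Real.exp t) ^ d :=
              pow_le_pow_left₀ (by positivity) (h3.trans h5) d
          _ = Real.exp (d * t) := by rw [← Real.exp_nat_mul]
      have h6 : Real.exp (-(D / t)) ≤ Real.exp (-(t ^ 2)) := by
        refine Real.exp_le_exp.2 (neg_le_neg ?_)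
        rw [le_div_iff₀ ht0]
        have h8 : t ^ 2 * t = t ^ 3 := by ring
        rw [h8]
        exact hD1
      refine le_trans ?_ (big_t C2 d hC2 t (by linarith))
      have h7 : 0 ≤ Real.exp (-(D / t)) := (Real.exp_pos _).le
      gcongr
    have hfin : 2 * C1 * t ^ ε * (1 / t) + 1 / t ≤ CF * t ^ ε * (1 / t + N / (L : ℝ) ^ d) := by
      have h3 : 1 / t ≤ t ^ ε * (1 / t) := le_mul_of_one_le_left (by positivity) hte1
      have h4 : 0 ≤ t ^ ε * (1 / t) := by positivity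
      have h5 : (2 * C1 + 1) * (t ^ ε * (1 / t)) ≤ CF * (t ^ ε * (1 / t)) :=
        mul_le_mul_of_nonneg_right (by linarith) h4
      have h6 : 0 ≤ CF * t ^ ε * (N / (L : ℝ) ^ d) := by
        have : 0 ≤ CF := by linarith
        positivity
      have h7 : CF * t ^ ε * (1 / t + N / (L : ℝ) ^ d) =
          CF * (t ^ ε * (1 / t)) + CF * t ^ ε * (N / (L : ℝ) ^ d) := by ring
      rw [h7]
      linarith
    calc stirExp (nnRate d L) t (fun g => if (cyc g x).card ≤ N then 1 else 0) ≤ _ := hmain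
      _ ≤ 2 * C1 * t ^ ε * (1 / t) + 1 / t := add_le_add (hsmall.trans hA) hB
      _ ≤ _ := hfin

end Pool.Agent.Q277.LC
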